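import Pool.Agent.helper36.LT.Defs

set_option autoImplicit false
set_option linter.unusedSectionVars false
set_option linter.unusedVariables false

/-!
Closed properties of groups: injective homomorphisms, directed unions, general linear groups over
directed unions of rings; number fields (module LT-T3G)
-/

namespace Pool.Agent.helper50.LT

open Pool.Agent.helper36.LT
open Matrix (GeneralLinearGroup)

variable {P : ∀ (G : Type) [Group G], Prop}

/-- closed properties pass to groups which are isomorphic to one with the property -/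
theorem closed_iso (hP : Closed P) {G H : Type} [Group G] [Group H] (e : G ≃* H) (h : P G) :
    P H := by
  apply hP.colim PUnit (fun _ => G) (fun _ _ _ => MonoidHom.id G) H (fun _ => e.toMonoidHom)
  · intro i x
    rfl
  · intro i j k _ _ x
    rfl
  · intro i j _ x
    rfl
  · intro y
    exact ⟨PUnit.unit, e.symm y, e.apply_symm_apply y⟩
  · intro i x hx
    refine ⟨i, le_rfl, ?_⟩
    exact e.injective (hx.trans (map_one e).symm)
  · intro _
    exact h

theorem closed_inj (hP : Closed P) {G H : Type} [Group G] [Group H] (f : G →* H)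
    (hf : Function.Injective f) (h : P H) : P G :=
  closed_iso hP (MonoidHom.ofInjective hf).symm (hP.subgroup H h f.range)

/-- directed unions of subgroups -/
theorem closed_union (hP : Closed P) {L : Type} [Group L] (ι : Type) [Preorder ι] [Nonempty ι]
    [IsDirectedOrder ι] (H : ι → Subgroup L) (hmono : ∀ i j, i ≤ j → H i ≤ H j)
    (hsurj : ∀ y : L, ∃ i, y ∈ H i) (h : ∀ i, P (H i)) : P L := by
  apply hP.colim ι (fun i => H i) (fun i j hij => Subgroup.inclusion (hmono i j hij)) L
    (fun i => (H i).subtype)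
  · intro i x
    rfl
  · intro i j k _ _ x
    rfl
  · intro i j _ x
    rfl
  · intro y
    obtain ⟨i, hi⟩ := hsurj y
    exact ⟨i, ⟨y, hi⟩, rfl⟩
  · intro i x hx
    refine ⟨i, le_rfl, ?_⟩
    exact (H i).subtype_injective (hx.trans (map_one _).symm)
  · exact h

section glsec

variable (n : Type) [Fintype n] [DecidableEq n] {R A : Type} [CommRing R] [CommRing A]

theorem GL_map_injective (φ : A →+* R) (hφ : Function.Injective φ) :
    Function.Injective (GeneralLinearGroup.map (n := n) φ) := by
  intro a b hab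
  apply Units.ext
  have h4 : (GeneralLinearGroup.map φ a : Matrix n n R) =
    (GeneralLinearGroup.map φ b : Matrix n n R) := by rw [hab]
  ext i j
  exact hφ (congrFun (congrFun h4 i) j)

theorem mem_GL_range (φ : A →+* R) (hφ : Function.Injective φ) (y : GeneralLinearGroup n R) :
    y ∈ (GeneralLinearGroup.map (n := n) φ).range ↔
      ∀ i j, (y : Matrix n n R) i j ∈ φ.range ∧
        ((y⁻¹ : GeneralLinearGroup n R) : Matrix n n R) i j ∈ φ.range := by
  constructor
  · rintro ⟨x, rfl⟩ i j
    refine ⟨⟨(x : Matrix n n A) i j, rfl⟩, ?_⟩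
    rw [← map_inv]
    exact ⟨((x⁻¹ : GeneralLinearGroup n A) : Matrix n n A) i j, rfl⟩
  · intro h
    choose a ha using fun i j => (h i j).1
    choose b hb using fun i j => (h i j).2
    have hA : (Matrix.of a).map φ = (y : Matrix n n R) := by
      ext i j
      exact ha i j
    have hB : (Matrix.of b).map φ = ((y⁻¹ : GeneralLinearGroup n R) : Matrix n n R) := by
      ext i j
      exact hb i j
    have hinj : Function.Injective (fun M : Matrix n n A => M.map φ) := by
      intro M N hMN
      ext i j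
      exact hφ (congrFun (congrFun hMN i) j)
    have h1 : Matrix.of a * Matrix.of b = 1 := by
      apply hinj
      simp only [Matrix.map_mul]
      rw [hA, hB, ← Units.val_mul, mul_inv_cancel, Units.val_one]
      exact (Matrix.map_one φ (map_zero φ) (map_one φ)).symm
    have h2 : Matrix.of b * Matrix.of a = 1 := by
      apply hinj
      simp only [Matrix.map_mul]
      rw [hA, hB, ← Units.val_mul, inv_mul_cancel, Units.val_one]
      exact (Matrix.map_one φ (map_zero φ) (map_one φ)).symm
    refine ⟨⟨Matrix.of a, Matrix.of b, h1, h2⟩, ?_⟩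
    apply Units.ext
    exact hA

/-- general linear groups over directed unions -/
theorem closed_GL_union (hP : Closed P) (ι : Type) [Preorder ι] [Nonempty ι]
    [IsDirectedOrder ι] (A : ι → Type) [∀ i, CommRing (A i)] (φ : ∀ i, A i →+* R)
    (hinj : ∀ i, Function.Injective (φ i)) (hmono : ∀ i j, i ≤ j → (φ i).range ≤ (φ j).range)
    (hsurj : ∀ x : R, ∃ i, x ∈ (φ i).range) (h : ∀ i, P (GeneralLinearGroup n (A i))) :
    P (GeneralLinearGroup n R) := by
  apply closed_union hP ι (fun i => (GeneralLinearGroup.map (n := n) (φ i)).range)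
  · intro i j hij y hy
    rw [mem_GL_range n _ (hinj i)] at hy
    rw [mem_GL_range n _ (hinj j)]
    exact fun a b => ⟨hmono i j hij (hy a b).1, hmono i j hij (hy a b).2⟩
  · intro y
    choose e he using hsurj
    obtain ⟨M, hM⟩ := Finite.exists_le (fun p : n × n => e ((y : Matrix n n R) p.1 p.2))
    obtain ⟨N, hN⟩ := Finite.exists_le
      (fun p : n × n => e (((y⁻¹ : GeneralLinearGroup n R) : Matrix n n R) p.1 p.2))
    obtain ⟨K, hMK, hNK⟩ := exists_ge_ge M N
    refine ⟨K, ?_⟩
    rw [mem_GL_range n _ (hinj K)]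
    exact fun a b => ⟨hmono _ _ ((hM (a, b)).trans hMK) (he _),
      hmono _ _ ((hN (a, b)).trans hNK) (he _)⟩
  · intro i
    exact closed_iso hP (MonoidHom.ofInjective (GL_map_injective n _ (hinj i))) (h i)

end glsec

/-! ### number fields -/

/-- the homomorphism `ℤ[1/k!] → ℚ` -/
noncomputable def phi (k : ℕ) : Localization.Away ((k.factorial : ℕ) : ℤ) →+* ℚ :=
  IsLocalization.Away.lift ((k.factorial : ℕ) : ℤ) (g := Int.castRingHom ℚ) (by
    simpa using Nat.factorial_ne_zero k)

theorem phi_algebraMap (k : ℕ) (a : ℤ) : phi k (algebraMap ℤ _ a) = a := by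
  rw [phi, IsLocalization.Away.lift_eq]
  rfl

theorem mem_phi_range (k : ℕ) (x : ℚ) : x ∈ (phi k).range ↔ ∃ (m : ℕ) (a : ℤ),
    x * ((k.factorial : ℕ) : ℚ) ^ m = a := by
  have hk : ((k.factorial : ℕ) : ℚ) ≠ 0 := by
    exact_mod_cast Nat.factorial_ne_zero k
  constructor
  · rintro ⟨y, rfl⟩
    obtain ⟨m, a, h⟩ := IsLocalization.Away.surj ((k.factorial : ℕ) : ℤ) y
    refine ⟨m, a, ?_⟩
    have h1 := congrArg (phi k) h
    rw [map_mul, map_pow, phi_algebraMap, phi_algebraMap] at h1
    exact_mod_cast h1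
  · rintro ⟨m, a, h⟩
    have hu : IsUnit (algebraMap ℤ (Localization.Away ((k.factorial : ℕ) : ℤ))
      ((k.factorial : ℕ) : ℤ)) := IsLocalization.Away.algebraMap_isUnit _
    obtain ⟨u, hu⟩ := hu
    refine ⟨algebraMap ℤ _ a * ((u⁻¹ ^ m : (Localization.Away ((k.factorial : ℕ) : ℤ))ˣ) :
      Localization.Away ((k.factorial : ℕ) : ℤ)), ?_⟩
    have h2 : phi k (u : Localization.Away ((k.factorial : ℕ) : ℤ)) = ((k.factorial : ℕ) : ℚ) := by
      rw [hu, phi_algebraMap]
      rfl
    have h3 : phi k ((u⁻¹ ^ m : (Localization.Away ((k.factorial : ℕ) : ℤ))ˣ) :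
        Localization.Away ((k.factorial : ℕ) : ℤ)) * ((k.factorial : ℕ) : ℚ) ^ m = 1 := by
      rw [← h2, ← map_pow, ← map_mul, ← Units.val_pow_eq_pow_val, ← Units.val_mul, inv_pow,
        inv_mul_cancel, Units.val_one, map_one]
    rw [map_mul, phi_algebraMap, ← h, mul_assoc, mul_comm (((k.factorial : ℕ) : ℚ) ^ m), h3,
      mul_one]

theorem phi_injective (k : ℕ) : Function.Injective (phi k) := by
  rw [injective_iff_map_eq_zero]
  intro y hy
  obtain ⟨m, a, h⟩ := IsLocalization.Away.surj ((k.factorial : ℕ) : ℤ) y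
  have h1 := congrArg (phi k) h
  rw [map_mul, phi_algebraMap, hy, zero_mul] at h1
  have ha : a = 0 := by exact_mod_cast h1.symm
  rw [ha, map_zero] at h
  have hu : IsUnit (algebraMap ℤ (Localization.Away ((k.factorial : ℕ) : ℤ))
      ((k.factorial : ℕ) : ℤ)) := IsLocalization.Away.algebraMap_isUnit _
  exact (hu.pow m).mul_left_eq_zero.1 h

theorem closed_GL_rat (hP : Closed P)
    (h : ∀ n N : ℕ, N ≠ 0 → P (GeneralLinearGroup (Fin n) (Localization.Away (N : ℤ)))) (n : ℕ) :
    P (GeneralLinearGroup (Fin n) ℚ) := by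
  apply closed_GL_union (Fin n) hP ℕ (fun k => Localization.Away ((k.factorial : ℕ) : ℤ)) phi
    phi_injective
  · intro i j hij x hx
    rw [mem_phi_range] at hx ⊢
    obtain ⟨m, a, ha⟩ := hx
    obtain ⟨c, hc⟩ := Nat.factorial_dvd_factorial hij
    refine ⟨m, a * (c : ℤ) ^ m, ?_⟩
    rw [hc]
    push_cast
    rw [mul_pow, ← mul_assoc, ha]
  · intro x
    refine ⟨x.den, ?_⟩
    rw [mem_phi_range]
    obtain ⟨c, hc⟩ := Nat.dvd_factorial x.den_pos le_rfl
    refine ⟨1, x.num * c, ?_⟩
    rw [hc]
    push_cast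
    rw [pow_one, ← mul_assoc, Rat.mul_den_eq_num]
  · intro k
    exact h n _ (Nat.factorial_ne_zero k)

/-- LT-T3G -/
theorem gl_numberField_of_arith (hP : Closed P)
    (h : ∀ n N : ℕ, N ≠ 0 → P (GeneralLinearGroup (Fin n) (Localization.Away (N : ℤ))))
    (n K : Type) [Fintype n] [DecidableEq n] [Field K] [NumberField K] :
    P (GeneralLinearGroup n K) := by
  classical
  let b := Module.finBasis ℚ K
  let d := Module.finrank ℚ K
  let f1 : Matrix n n K →+* Matrix n n (Matrix (Fin d) (Fin d) ℚ) :=
    RingHom.mapMatrix (Algebra.leftMulMatrix b).toRingHom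
  let f2 : Matrix n n (Matrix (Fin d) (Fin d) ℚ) ≃+* Matrix (n × Fin d) (n × Fin d) ℚ :=
    Matrix.compRingEquiv n (Fin d) ℚ
  let f3 : Matrix (n × Fin d) (n × Fin d) ℚ ≃ₐ[ℚ]
      Matrix (Fin (Fintype.card (n × Fin d))) (Fin (Fintype.card (n × Fin d))) ℚ :=
    Matrix.reindexAlgEquiv ℚ ℚ (Fintype.equivFin (n × Fin d))
  let f : Matrix n n K →+* Matrix (Fin (Fintype.card (n × Fin d))) (Fin (Fintype.card (n × Fin d))) ℚ :=
    (f3.toRingEquiv.toRingHom).comp (f2.toRingHom.comp f1)
  have hf1 : Function.Injective f1 := by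
    intro M N hMN
    ext i j
    exact Algebra.leftMulMatrix_injective b (congrFun (congrFun hMN i) j)
  have hf : Function.Injective f :=
    f3.injective.comp (f2.injective.comp hf1)
  exact closed_inj hP (Units.map f.toMonoidHom) (Units.map_injective hf) (closed_GL_rat hP h _)

end Pool.Agent.helper50.LT
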