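import Pool.Agent.helper36.LT.ArtinDefs

set_option autoImplicit false
set_option linter.unusedSectionVars false
set_option linter.unusedVariables false

/-!
Homomorphisms out of Artin groups, the transvection representation
-/

namespace Pool.Agent.helper50.LT

open Pool.Agent.helper36.LT

/-! ### alternating products -/

theorem alt_map {M N : Type} [Monoid M] [Monoid N] (f : M →* N) (a b : M) (n : ℕ) :
    f (alt a b n) = alt (f a) (f b) n := by
  induction n generalizing a b with
  | zero => simp [alt]
  | succ n ih => simp [alt, ih]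

theorem alt_central {M : Type} [Monoid M] (c a b : M) (hc : ∀ x, c * x = x * c) (n : ℕ) :
    alt (c * a) (c * b) n = c ^ n * alt a b n := by
  have hcn : ∀ n x, c ^ n * x = x * c ^ n := by
    intro n x
    exact (Commute.pow_left (hc x : Commute c x) n)
  induction n generalizing a b with
  | zero => simp [alt]
  | succ n ih =>
    simp only [alt]
    rw [ih b a, pow_succ', mul_assoc, mul_assoc, ← mul_assoc a, ← hcn n a, mul_assoc]

section

variable {S : Type} (M : CoxeterMatrix S)

theorem gen_rel (s t : S) :
    alt (gen M s) (gen M t) (M.M s t) = alt (gen M t) (gen M s) (M.M s t) := by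
  have h : PresentedGroup.mk (artinRels M) (alt (FreeGroup.of s) (FreeGroup.of t) (M.M s t)) =
      PresentedGroup.mk (artinRels M) (alt (FreeGroup.of t) (FreeGroup.of s) (M.M s t)) := by
    apply PresentedGroup.mk_eq_mk_of_mul_inv_mem
    exact ⟨(s, t), rfl⟩
  rw [alt_map, alt_map] at h
  exact h

/-- homomorphisms out of the Artin group -/
def lift {G : Type} [Group G] (f : S → G)
    (h : ∀ s t, alt (f s) (f t) (M.M s t) = alt (f t) (f s) (M.M s t)) : Artin M →* G :=
  PresentedGroup.toGroup (f := f) (by
    rintro r ⟨⟨s, t⟩, rfl⟩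
    simp only [map_mul, map_inv, alt_map, FreeGroup.lift_apply_of]
    rw [h, mul_inv_cancel])

@[simp] theorem lift_gen {G : Type} [Group G] (f : S → G)
    (h : ∀ s t, alt (f s) (f t) (M.M s t) = alt (f t) (f s) (M.M s t)) (s : S) :
    lift M f h (gen M s) = f s := PresentedGroup.toGroup.of _

theorem artin_hom_ext {G : Type} [Group G] {f g : Artin M →* G}
    (h : ∀ s, f (gen M s) = g (gen M s)) : f = g :=
  PresentedGroup.ext h

/-- the length homomorphism -/
def len : Artin M →* Multiplicative ℤ := lift M (fun _ => Multiplicative.ofAdd 1) (fun _ _ => rfl)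

@[simp] theorem len_gen (s : S) : len M (gen M s) = Multiplicative.ofAdd 1 := lift_gen _ _ _ _

/-- homomorphisms multiplied by a power of a central element -/
def twist {G : Type} [Group G] (f : Artin M →* G) (c : G) (hc : ∀ x, c * x = x * c) :
    Artin M →* G where
  toFun x := c ^ (Multiplicative.toAdd (len M x)) * f x
  map_one' := by simp
  map_mul' x y := by
    have h : ∀ n : ℤ, ∀ x, c ^ n * x = x * c ^ n := fun n x =>
      (Commute.zpow_left (hc x : Commute c x) n)
    rw [(len M).map_mul, f.map_mul, toAdd_mul, zpow_add]
    have h1 := h (Multiplicative.toAdd (len M y)) (f x)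
    rw [mul_assoc, ← mul_assoc (c ^ Multiplicative.toAdd (len M y)) (f x) (f y), h1]
    group

@[simp] theorem twist_gen {G : Type} [Group G] (f : Artin M →* G) (c : G) (hc : ∀ x, c * x = x * c)
    (s : S) : twist M f c hc (gen M s) = c * f (gen M s) := by
  simp [twist]

end

/-! ### transvections -/

section

variable {S : Type} [Fintype S] [DecidableEq S] {R : Type} [CommRing R]

/-- the transvection with a parameter -/
def tvz (x : S → S → R) (s : S) (k : R) : Matrix S S R :=
  Matrix.of fun i j => (if i = j then 1 else 0) + (if i = s then k * x s j else 0)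

theorem tvz_zero (x : S → S → R) (s : S) : tvz x s 0 = 1 := by
  ext i j
  simp [tvz, Matrix.one_apply]

theorem tvz_add (x : S → S → R) (s : S) (hx : x s s = 0) (k l : R) :
    tvz x s (k + l) = tvz x s k * tvz x s l := by
  ext i j
  simp only [tvz, Matrix.of_apply, Matrix.mul_apply, add_mul, mul_add, Finset.sum_add_distrib]
  have h1 : ∑ a, (if i = a then (1 : R) else 0) * (if a = j then 1 else 0) =
      if i = j then 1 else 0 := by
    simp
  have h2 : ∑ a, (if i = a then (1 : R) else 0) * (if a = s then l * x s j else 0) =
      if i = s then l * x s j else 0 := by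
    simp
  have h3 : ∑ a, (if i = s then k * x s a else 0) * (if a = j then (1 : R) else 0) =
      if i = s then k * x s j else 0 := by
    simp
  have h4 : ∑ a, (if i = s then k * x s a else 0) * (if a = s then l * x s j else 0) = 0 := by
    apply Finset.sum_eq_zero
    intro a _
    by_cases ha : a = s
    · subst ha
      simp [hx]
    · simp [ha]
  rw [h1, h2, h3, h4]
  split_ifs <;> ring

/-- the one parameter group of transvections -/
def tvHom (x : S → S → R) (s : S) (hx : x s s = 0) : Multiplicative R →* Matrix S S R where
  toFun k := tvz x s (Multiplicative.toAdd k)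
  map_one' := tvz_zero x s
  map_mul' k l := tvz_add x s hx _ _

/-- the transvection as a unit -/
def tvu (x : S → S → R) (s : S) (hx : x s s = 0) : Matrix.GeneralLinearGroup S R :=
  (tvHom x s hx).toHomUnits (Multiplicative.ofAdd 1)

theorem tvu_val (x : S → S → R) (s : S) (hx : x s s = 0) :
    (tvu x s hx : Matrix S S R) = tvz x s 1 := rfl

theorem tvu_zpow (x : S → S → R) (s : S) (hx : x s s = 0) (k : ℤ) :
    ((tvu x s hx ^ k : Matrix.GeneralLinearGroup S R) : Matrix S S R) = tvz x s (k : R) := by
  have h : tvu x s hx ^ k = (tvHom x s hx).toHomUnits (Multiplicative.ofAdd (k : R)) := by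
    rw [tvu, ← map_zpow]
    congr 1
    rw [← ofAdd_zsmul]
    simp
  rw [h]
  rfl

theorem det_tvz (x : S → S → R) (s : S) (hx : x s s = 0) (k : R) : (tvz x s k).det = 1 := by
  have h : tvz x s k = 1 + Matrix.replicateCol Unit (Pi.single s (1 : R)) *
      Matrix.replicateRow Unit (fun j => k * x s j) := by
    ext i j
    simp [tvz, Matrix.one_apply, Matrix.mul_apply, Pi.single_apply]
  rw [h, Matrix.det_one_add_replicateCol_mul_replicateRow]
  simp [hx]

theorem tvz_map {R' : Type} [CommRing R'] (f : R →+* R') (x : S → S → R) (s : S) (k : R) :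
    (tvz x s k).map f = tvz (fun a b => f (x a b)) s (f k) := by
  ext i j
  simp only [tvz, Matrix.map_apply, Matrix.of_apply, map_add]
  congr 1
  · split_ifs <;> simp
  · split_ifs <;> simp

theorem trv_eq (ω : S → S → ℝ) (s : S) : trv ω s = tvz ω s 1 := by
  ext i j
  simp [trv, tvz]

end

end Pool.Agent.helper50.LT
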