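import Pool.Agent.helper50.LT.SysA

set_option autoImplicit false
set_option linter.unusedSectionVars false
set_option linter.unusedVariables false

/-!
The linear representation of an Artin group of large type over a number field, injective on the
stabilisers
-/

namespace Pool.Agent.helper50.LT

open Pool.Agent.helper36.LT
open Matrix (GeneralLinearGroup)

/-- module N3 -/
def N3 : Prop := ∀ (G : Type) [Group G] (s t : G) (m : ℕ) (hm : m = 0 ∨ 3 ≤ m)
    (hrel : alt s t m = alt t s m) (len : G →* Multiplicative ℤ)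
    (hs : len s = Multiplicative.ofAdd 1) (ht : len t = Multiplicative.ofAdd 1)
    (f : G →* GeneralLinearGroup (Fin 2) ℝ)
    (fs : (f s : Matrix (Fin 2) (Fin 2) ℝ) = !![1, 2 * Real.cos (Real.pi / m); 0, 1])
    (ft : (f t : Matrix (Fin 2) (Fin 2) ℝ) = !![1, 0; -(2 * Real.cos (Real.pi / m)), 1])
    (x : G) (hx : x ∈ Subgroup.closure {s, t}) (hlen : len x = 1) (hf : f x = 1), x = 1

section block

variable {S : Type} [Fintype S] [DecidableEq S]

/-- restriction of a representation to the span of two basis vectors -/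
noncomputable def blk {H : Type} [Group H] (ρ : H →* GeneralLinearGroup S ℝ) (s t : S) (hst : s ≠ t)
    (h : ∀ (x : H) (i j : S), i ≠ s → i ≠ t → (j = s ∨ j = t) → (ρ x : Matrix S S ℝ) i j = 0) :
    H →* GeneralLinearGroup (Fin 2) ℝ :=
  MonoidHom.toHomUnits
    { toFun := fun x => (ρ x : Matrix S S ℝ).submatrix ![s, t] ![s, t]
      map_one' := by
        rw [map_one, Units.val_one]
        apply Matrix.submatrix_one
        intro i j hij
        fin_cases i <;> fin_cases j <;> simp_all
      map_mul' := by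
        intro x y
        rw [map_mul, Units.val_mul]
        have key : ∀ (a b : Fin 2), ((ρ x : Matrix S S ℝ) * (ρ y : Matrix S S ℝ)) (![s, t] a) (![s, t] b) =
            (ρ x : Matrix S S ℝ) (![s, t] a) s * (ρ y : Matrix S S ℝ) s (![s, t] b) +
            (ρ x : Matrix S S ℝ) (![s, t] a) t * (ρ y : Matrix S S ℝ) t (![s, t] b) := by
          intro a b
          rw [Matrix.mul_apply, ← Finset.sum_subset (Finset.subset_univ {s, t})]
          · rw [Finset.sum_pair hst]
          · intro k _ hk
            simp only [Finset.mem_insert, Finset.mem_singleton, not_or] at hk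
            have : ![s, t] b = s ∨ ![s, t] b = t := by
              fin_cases b <;> simp
            rw [h y k _ hk.1 hk.2 this, mul_zero]
        ext a b
        rw [Matrix.submatrix_apply, key, Matrix.mul_apply, Fin.sum_univ_two]
        rfl }

theorem blk_val {H : Type} [Group H] (ρ : H →* GeneralLinearGroup S ℝ) (s t : S) (hst : s ≠ t)
    (h : ∀ (x : H) (i j : S), i ≠ s → i ≠ t → (j = s ∨ j = t) → (ρ x : Matrix S S ℝ) i j = 0)
    (x : H) : (blk ρ s t hst h x : Matrix (Fin 2) (Fin 2) ℝ) =
      (ρ x : Matrix S S ℝ).submatrix ![s, t] ![s, t] := rfl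

end block

section

variable {S : Type} [Fintype S] [DecidableEq S] (M : CoxeterMatrix S)

theorem rep1_zero (h2 : N1b) (hM : ∀ s t, M.M s t ≠ 2) {ω : S → S → ℝ} (hω : Form M ω) (s t : S)
    (x : Artin M) (hx : x ∈ Subgroup.closure {gen M s, gen M t}) (i j : S) (his : i ≠ s)
    (hit : i ≠ t) (hj : j = s ∨ j = t) : (rep1 M h2 hM hω x : Matrix S S ℝ) i j = 0 := by
  have hij : i ≠ j := by
    rcases hj with rfl | rfl <;> assumption
  have hg : ∀ (k : ℤ), (rep1 M h2 hM hω (gen M s ^ k) : Matrix S S ℝ) i j = 0 := by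
    intro k
    rw [rep1_gen_zpow]
    simp [tvz, his, hij]
  have hg' : ∀ (k : ℤ), (rep1 M h2 hM hω (gen M t ^ k) : Matrix S S ℝ) i j = 0 := by
    intro k
    rw [rep1_gen_zpow]
    simp [tvz, hit, hij]
  have key : ∀ x ∈ Subgroup.closure {gen M s, gen M t},
      (∀ i j, i ≠ s → i ≠ t → (j = s ∨ j = t) → (rep1 M h2 hM hω x : Matrix S S ℝ) i j = 0) ∧
      (∀ i j, i ≠ s → i ≠ t → (j = s ∨ j = t) → (rep1 M h2 hM hω x⁻¹ : Matrix S S ℝ) i j = 0) := by
    intro x hx
    have hgen : ∀ (u : S) (hu : u = s ∨ u = t) (k : ℤ) (i j : S), i ≠ s → i ≠ t →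
        (j = s ∨ j = t) → (rep1 M h2 hM hω (gen M u ^ k) : Matrix S S ℝ) i j = 0 := by
      intro u hu k i j h1 h3 h4
      have hij : i ≠ j := by
        rcases h4 with rfl | rfl <;> assumption
      have hiu : i ≠ u := by
        rcases hu with rfl | rfl <;> assumption
      rw [rep1_gen_zpow]
      simp [tvz, hiu, hij]
    have hmul : ∀ x y : Artin M,
        (∀ i j, i ≠ s → i ≠ t → (j = s ∨ j = t) → (rep1 M h2 hM hω x : Matrix S S ℝ) i j = 0) →
        (∀ i j, i ≠ s → i ≠ t → (j = s ∨ j = t) → (rep1 M h2 hM hω y : Matrix S S ℝ) i j = 0) →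
        (∀ i j, i ≠ s → i ≠ t → (j = s ∨ j = t) →
          (rep1 M h2 hM hω (x * y) : Matrix S S ℝ) i j = 0) := by
      intro x y hx hy i j h1 h3 h4
      rw [map_mul, Units.val_mul, Matrix.mul_apply]
      apply Finset.sum_eq_zero
      intro k _
      by_cases hk : k = s ∨ k = t
      · rw [hx i k h1 h3 hk, zero_mul]
      · rw [hy k j (fun h => hk (Or.inl h)) (fun h => hk (Or.inr h)) h4, mul_zero]
    induction hx using Subgroup.closure_induction with
    | mem x hx =>
      rcases hx with rfl | hx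
      · refine ⟨?_, ?_⟩
        · simpa using hgen s (Or.inl rfl) 1
        · simpa using hgen s (Or.inl rfl) (-1)
      · rw [Set.mem_singleton_iff] at hx
        subst hx
        refine ⟨?_, ?_⟩
        · simpa using hgen t (Or.inr rfl) 1
        · simpa using hgen t (Or.inr rfl) (-1)
    | one =>
      refine ⟨?_, ?_⟩
      · simpa using hgen s (Or.inl rfl) 0
      · simpa using hgen s (Or.inl rfl) 0
    | mul x y _ _ ihx ihy =>
      refine ⟨hmul x y ihx.1 ihy.1, ?_⟩
      rw [mul_inv_rev]
      exact hmul _ _ ihy.2 ihx.2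
    | inv x _ ih =>
      exact ⟨ih.2, by rw [inv_inv]; exact ih.1⟩
  exact (key x hx).1 i j his hit hj

theorem hm_of (hM : ∀ s t, M.M s t ≠ 2) {s t : S} (h : s ≠ t) : M.M s t = 0 ∨ 3 ≤ M.M s t := by
  have h1 := hM s t
  have h2 := M.off_diagonal s t h
  omega

theorem dihedral_aux (h2 : N1b) (h3 : N3) (hM : ∀ s t, M.M s t ≠ 2) {ω : S → S → ℝ}
    (hω : Form M ω) {s t : S} (hst : s ≠ t) (hc : ω s t = 2 * Real.cos (Real.pi / M.M s t))
    (x : Artin M) (hx : x ∈ Subgroup.closure {gen M s, gen M t}) (hlen : len M x = 1)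
    (hf : rep1 M h2 hM hω x = 1) : x = 1 := by
  let H : Subgroup (Artin M) := Subgroup.closure {gen M s, gen M t}
  have hs : gen M s ∈ H := Subgroup.subset_closure (by simp)
  have ht : gen M t ∈ H := Subgroup.subset_closure (by simp)
  let s' : H := ⟨gen M s, hs⟩
  let t' : H := ⟨gen M t, ht⟩
  let ρ : H →* GeneralLinearGroup S ℝ := (rep1 M h2 hM hω).comp H.subtype
  have hρ : ∀ (x : H) (i j : S), i ≠ s → i ≠ t → (j = s ∨ j = t) →
      (ρ x : Matrix S S ℝ) i j = 0 := fun x i j h4 h5 h6 =>
    rep1_zero M h2 hM hω s t x.1 x.2 i j h4 h5 h6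
  have hss := form_self hω s
  have htt := form_self hω t
  have hts : ω t s = - (2 * Real.cos (Real.pi / M.M s t)) := by
    rw [hω.skew s t, hc]
  have h := h3 H s' t' (M.M s t) (hm_of M hM hst) (by
      apply H.subtype_injective
      rw [alt_map, alt_map]
      exact gen_rel M s t) ((len M).comp H.subtype) (len_gen M s) (len_gen M t)
    (blk ρ s t hst hρ) (by
      rw [blk_val]
      have : (ρ s' : Matrix S S ℝ) = tvz ω s 1 := by
        have h9 : ρ s' = rep1 M h2 hM hω (gen M s) := rfl
        rw [h9, rep1_gen, tvu_val]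
      rw [this]
      ext i j
      fin_cases i <;> fin_cases j <;> simp [tvz, hss, hst, Ne.symm hst, hc]) (by
      rw [blk_val]
      have : (ρ t' : Matrix S S ℝ) = tvz ω t 1 := by
        have h9 : ρ t' = rep1 M h2 hM hω (gen M t) := rfl
        rw [h9, rep1_gen, tvu_val]
      rw [this]
      ext i j
      fin_cases i <;> fin_cases j <;> simp [tvz, htt, hst, Ne.symm hst, hts])
    ⟨x, hx⟩ (by
      have h4 : ({s', t'} : Set H) = ((↑) : H → Artin M) ⁻¹' {gen M s, gen M t} := by
        ext y
        simp only [Set.mem_insert_iff, Set.mem_singleton_iff, Set.mem_preimage, Subtype.ext_iff, s', t']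
      rw [h4, Subgroup.closure_closure_coe_preimage]
      exact Subgroup.mem_top _) hlen (by
      apply Units.ext
      rw [blk_val]
      have : (ρ ⟨x, hx⟩ : GeneralLinearGroup S ℝ) = 1 := hf
      rw [this, Units.val_one, Units.val_one]
      apply Matrix.submatrix_one
      intro i j hij
      fin_cases i <;> fin_cases j <;> simp_all)
  exact congrArg Subtype.val h

theorem dihedral_aux' (h2 : N1b) (h3 : N3) (hM : ∀ s t, M.M s t ≠ 2) {ω : S → S → ℝ}
    (hω : Form M ω) {s t : S} (hst : s ≠ t)
    (x : Artin M) (hx : x ∈ Subgroup.closure {gen M s, gen M t}) (hlen : len M x = 1)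
    (hf : rep1 M h2 hM hω x = 1) : x = 1 := by
  rcases hω.val s t hst with h | h
  · exact dihedral_aux M h2 h3 hM hω hst h x hx hlen hf
  · apply dihedral_aux M h2 h3 hM hω hst.symm _ x _ hlen hf
    · rw [hω.skew s t, h, M.symmetric t s]
      simp
    · rw [Set.pair_comm]
      exact hx

end

/-! ### the number field -/

section field

variable {S : Type} [Fintype S] [DecidableEq S] (M : CoxeterMatrix S)

theorem isIntegral_two_cos (m : ℕ) : IsIntegral ℚ (2 * Real.cos (Real.pi / m)) := by
  have h := Real.isIntegral_two_mul_cos_rat_mul_pi (1 / m : ℚ)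
  have h1 : 2 * Real.cos (((1 / m : ℚ) : ℝ) * Real.pi) = 2 * Real.cos (Real.pi / m) := by
    congr 2
    push_cast
    ring
  rw [h1] at h
  exact h.tower_top

theorem isIntegral_form {ω : S → S → ℝ} (hω : Form M ω) (s t : S) : IsIntegral ℚ (ω s t) := by
  by_cases hst : s = t
  · subst hst
    rw [form_self hω]
    exact isIntegral_zero
  · rcases hω.val s t hst with h | h
    · rw [h]
      exact isIntegral_two_cos _
    · rw [h]
      exact (isIntegral_two_cos _).neg

end field

theorem artin_rep_of (h1 : N1a) (h2 : N1b) (h3 : N3) {S : Type} [Fintype S] [DecidableEq S]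
    (M : CoxeterMatrix S)
    (hM : ∀ s t, M.M s t ≠ 2) (X : Sys S (Artin M)) (hX : X.r = artinRel M) :
    ∃ (K : Type) (_ : Field K) (_ : NumberField K) (f : Artin M →* GeneralLinearGroup S K),
      X.InjStab f := by
  obtain ⟨ω, hω⟩ := h1 M
  let A : Set ℝ := Set.range fun p : S × S => ω p.1 p.2
  let K := IntermediateField.adjoin ℚ A
  have hfin : FiniteDimensional ℚ K := IntermediateField.finiteDimensional_adjoin (by
    rintro x ⟨⟨s, t⟩, rfl⟩
    exact isIntegral_form M hω s t)
  let ωK : S → S → K := fun s t => ⟨ω s t, IntermediateField.subset_adjoin ℚ A ⟨(s, t), rfl⟩⟩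
  have hωK : ∀ s, ωK s s = 0 := fun s => Subtype.ext (form_self hω s)
  have hinj : Function.Injective (algebraMap K ℝ) := (algebraMap K ℝ).injective
  let μ : GeneralLinearGroup S K →* GeneralLinearGroup S ℝ :=
    GeneralLinearGroup.map (algebraMap K ℝ)
  have hμ : Function.Injective μ := by
    intro a b hab
    apply Units.ext
    have h4 : (μ a : Matrix S S ℝ) = (μ b : Matrix S S ℝ) := by rw [hab]
    ext i j
    have h5 := congrFun (congrFun h4 i) j
    have h6 : algebraMap K ℝ ((a : Matrix S S K) i j) = algebraMap K ℝ ((b : Matrix S S K) i j) := h5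
    rw [hinj h6]
  have hμtv : ∀ s, μ (tvu ωK s (hωK s)) = tvu ω s (form_self hω s) := by
    intro s
    apply Units.ext
    have h4 : (μ (tvu ωK s (hωK s)) : Matrix S S ℝ) = (tvz ωK s 1).map (algebraMap K ℝ) := rfl
    rw [h4, tvz_map, tvu_val, map_one]
    rfl
  let ρ : Artin M →* GeneralLinearGroup S K := lift M (fun s => tvu ωK s (hωK s)) (by
    intro s t
    apply hμ
    rw [alt_map, alt_map, hμtv, hμtv]
    have := congrArg (rep1 M h2 hM hω) (gen_rel M s t)
    rwa [alt_map, alt_map, rep1_gen, rep1_gen] at this)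
  have hρgen : ∀ s, ρ (gen M s) = tvu ωK s (hωK s) := fun s => lift_gen _ _ _ _
  have hμρ : μ.comp ρ = rep1 M h2 hM hω := by
    apply artin_hom_ext
    intro s
    rw [MonoidHom.comp_apply, hρgen, hμtv, rep1_gen]
  let two : Kˣ := Units.mk0 2 (by norm_num)
  let c : GeneralLinearGroup S K := GeneralLinearGroup.scalar S two
  have hc : ∀ x, c * x = x * c := fun x => GeneralLinearGroup.scalar_commute two x
  have hdetρ : ∀ x, GeneralLinearGroup.det (ρ x) = 1 := by
    have h4 : (GeneralLinearGroup.det).comp ρ = 1 := by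
      apply artin_hom_ext
      intro s
      rw [MonoidHom.comp_apply, hρgen]
      apply Units.ext
      have h5 : ((GeneralLinearGroup.det (tvu ωK s (hωK s)) : Kˣ) : K) = (tvz ωK s 1).det := rfl
      rw [h5, det_tvz _ _ (hωK s)]
      rfl
    intro x
    exact DFunLike.congr_fun h4 x
  refine ⟨K, inferInstance, { to_charZero := inferInstance, to_finiteDimensional := hfin },
    twist M ρ c hc, ?_⟩
  intro T b hT g hg hf
  have hg1 : X.r T b (g • b) := hg
  rw [hX] at hg1
  unfold artinRel at hg1
  set x := b⁻¹ * (g • b) with hx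
  have hxg : x = b⁻¹ * g * b := by
    rw [hx, smul_eq_mul, mul_assoc]
  suffices h : x = 1 by
    rw [hxg] at h
    have : g = b * (b⁻¹ * g * b) * b⁻¹ := by group
    rw [this, h]
    group
  have hfx : twist M ρ c hc x = 1 := by
    rw [hxg, map_mul, map_mul, hf, mul_one, ← map_mul, inv_mul_cancel, map_one]
  have hlen : Nonempty S → len M x = 1 := by
    intro hS
    have h4 : GeneralLinearGroup.det (twist M ρ c hc x) = 1 := by rw [hfx, map_one]
    have h5 : twist M ρ c hc x = c ^ (Multiplicative.toAdd (len M x)) * ρ x := rfl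
    rw [h5, map_mul, hdetρ, mul_one, map_zpow, GeneralLinearGroup.det_scalar] at h4
    have h6 := congrArg (fun u : Kˣ => algebraMap K ℝ (u : K)) h4
    have h7 : ((2 : ℝ) ^ Fintype.card S) ^ (Multiplicative.toAdd (len M x)) = 1 := by
      simpa only [Units.val_zpow_eq_zpow_val, Units.val_pow_eq_pow_val, Units.val_mk0, two,
        Units.val_one, map_one, map_zpow₀, map_pow, map_ofNat] using h6
    have h8 : (1 : ℝ) < (2 : ℝ) ^ Fintype.card S :=
      one_lt_pow₀ (by norm_num) Fintype.card_ne_zero
    have h9 : Multiplicative.toAdd (len M x) = 0 := by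
      by_contra hne
      exact hne ((zpow_eq_one_iff_right₀ (by linarith) (by linarith)).1 h7)
    exact h9
  have hρx : Nonempty S → rep1 M h2 hM hω x = 1 := by
    intro hS
    have h5 : twist M ρ c hc x = c ^ (Multiplicative.toAdd (len M x)) * ρ x := rfl
    rw [h5, hlen hS, toAdd_one, zpow_zero, one_mul] at hfx
    rw [← hμρ, MonoidHom.comp_apply, hfx, map_one]
  rcases hT with rfl | ⟨s, rfl⟩ | ⟨s, t, hst, rfl⟩
  · rw [Set.image_empty, Subgroup.closure_empty, Subgroup.mem_bot] at hg1
    exact hg1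
  · rw [mem_closure_gen_singleton] at hg1
    obtain ⟨k, hk⟩ := hg1
    have h4 := hlen ⟨s⟩
    rw [← hk, map_zpow, len_gen, ← ofAdd_zsmul] at h4
    have h5 : k = 0 := by
      have := congrArg Multiplicative.toAdd h4
      simpa using this
    rw [← hk, h5, zpow_zero]
  · rw [Set.image_pair] at hg1
    exact dihedral_aux' M h2 h3 hM hω hst x hg1 (hlen ⟨s⟩) (hρx ⟨s⟩)

end Pool.Agent.helper50.LT
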