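import Pool.Agent.helper50.LT.N2
import Pool.Agent.helper36.LT.ArtinSC

set_option autoImplicit false
set_option linter.unusedSectionVars false
set_option linter.unusedVariables false

/-!
Module LT-N5: large type Artin groups satisfy every closed property which general linear groups
over number fields satisfy
-/

namespace Pool.Agent.helper50.LT

open Pool.Agent.helper36.LT
open Matrix (GeneralLinearGroup)

/-- the main theorem (module M3) -/
def MainStmt : Prop := ∀ {S B : Type} {P : ∀ (G : Type) [Group G], Prop} (hP : Closed P) [Finite S]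
    (hS : ∃ s t : S, s ≠ t) (G Q : Type) [Group G] [Group Q] [MulAction G B] (X : Sys S B)
    (hX : X.SC) (hG : X.Inv G) (f : G →* Q) (hf : X.InjStab f) (hQ : P Q), P G

section

variable {S : Type} (M : CoxeterMatrix S)

/-- restriction of a Coxeter matrix to a finite subset -/
def restr (F : Finset S) : CoxeterMatrix F where
  M := M.M.submatrix (fun i => i.1) (fun i => i.1)
  isSymm := M.isSymm.submatrix _
  diagonal i := M.diagonal _
  off_diagonal i i' h := M.off_diagonal _ _ (fun h' => h (Subtype.ext h'))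

/-- the natural homomorphism -/
def mp {F F' : Finset S} (h : F ⊆ F') : Artin (restr M F) →* Artin (restr M F') :=
  lift (restr M F) (fun s => gen (restr M F') ⟨s.1, h s.2⟩)
    (fun s t => gen_rel (restr M F') ⟨s.1, h s.2⟩ ⟨t.1, h t.2⟩)

theorem mp_gen {F F' : Finset S} (h : F ⊆ F') (s : S) (hs : s ∈ F) :
    mp M h (gen (restr M F) ⟨s, hs⟩) = gen (restr M F') ⟨s, h hs⟩ := lift_gen _ _ _ _

/-- the natural homomorphism to the whole group -/
def inc (F : Finset S) : Artin (restr M F) →* Artin M :=
  lift (restr M F) (fun s => gen M s.1) (fun s t => gen_rel M s.1 t.1)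

theorem inc_gen (F : Finset S) (s : S) (hs : s ∈ F) :
    inc M F (gen (restr M F) ⟨s, hs⟩) = gen M s := lift_gen _ _ _ _

theorem mp_refl {F : Finset S} (h : F ⊆ F) (x : Artin (restr M F)) : mp M h x = x := by
  have : mp M h = MonoidHom.id _ := by
    apply artin_hom_ext
    rintro ⟨s, hs⟩
    rw [mp_gen]
    rfl
  rw [this]
  rfl

theorem mp_mp {F F' F'' : Finset S} (h : F ⊆ F') (h' : F' ⊆ F'') (h'' : F ⊆ F'')
    (x : Artin (restr M F)) : mp M h' (mp M h x) = mp M h'' x := by
  have : (mp M h').comp (mp M h) = mp M h'' := by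
    apply artin_hom_ext
    rintro ⟨s, hs⟩
    rw [MonoidHom.comp_apply, mp_gen, mp_gen, mp_gen]
  exact DFunLike.congr_fun this x

theorem inc_mp {F F' : Finset S} (h : F ⊆ F') (x : Artin (restr M F)) :
    inc M F' (mp M h x) = inc M F x := by
  have : (inc M F').comp (mp M h) = inc M F := by
    apply artin_hom_ext
    rintro ⟨s, hs⟩
    rw [MonoidHom.comp_apply, mp_gen, inc_gen, inc_gen]
  exact DFunLike.congr_fun this x

end

section

variable {S : Type} [DecidableEq S] (M : CoxeterMatrix S) (a b : S)

/-- the index sets -/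
def E (F : Finset S) : Finset S := insert a (insert b F)

theorem E_mono {F F' : Finset S} (h : F ≤ F') : E a b F ⊆ E a b F' :=
  Finset.insert_subset_insert _ (Finset.insert_subset_insert _ h)

theorem mem_E {F : Finset S} {s : S} (h : s ∈ F) : s ∈ E a b F :=
  Finset.mem_insert_of_mem (Finset.mem_insert_of_mem h)

/-- the groups -/
abbrev GE (F : Finset S) : Type := Artin (restr M (E a b F))

/-- the transition maps -/
def tr (F F' : Finset S) (h : F ≤ F') : GE M a b F →* GE M a b F' := mp M (E_mono a b h)

instance dirSys : DirectedSystem (GE M a b) (fun i j h => tr M a b i j h) where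
  map_self i x := mp_refl M _ x
  map_map i j k hij hjk x := mp_mp M _ _ _ x

/-- the direct limit -/
abbrev DL : Type := DirectLimit (GE M a b) (tr M a b)

/-- the canonical homomorphism to the direct limit -/
noncomputable def can (F : Finset S) : GE M a b F →* DL M a b where
  toFun x := Quotient.mk _ ⟨F, x⟩
  map_one' := (DirectLimit.one_def F).symm
  map_mul' x y := (DirectLimit.mul_def F x y).symm

theorem can_tr (F F' : Finset S) (h : F ≤ F') (x : GE M a b F) :
    can M a b F' (tr M a b F F' h x) = can M a b F x := 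
  (DirectLimit.mk_apply (f := fun i j h => tr M a b i j h) F F' x h)

theorem can_gen (F F' : Finset S) (s : S) (h : s ∈ E a b F) (h' : s ∈ E a b F') :
    can M a b F (gen (restr M (E a b F)) ⟨s, h⟩) =
      can M a b F' (gen (restr M (E a b F')) ⟨s, h'⟩) := by
  have h1 : F ≤ F ∪ F' := Finset.subset_union_left
  have h2 : F' ≤ F ∪ F' := Finset.subset_union_right
  rw [← can_tr M a b F _ h1, ← can_tr M a b F' _ h2]
  simp only [tr, mp_gen]

/-- the homomorphism to the direct limit -/
noncomputable def toDL : Artin M →* DL M a b :=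
  lift M (fun s => can M a b {s} (gen (restr M (E a b {s})) ⟨s, mem_E a b (by simp)⟩)) (by
    intro s t
    have hs : s ∈ E a b {s, t} := mem_E a b (by simp)
    have ht : t ∈ E a b {s, t} := mem_E a b (by simp)
    rw [can_gen M a b {s} {s, t} s _ hs, can_gen M a b {t} {s, t} t _ ht, ← alt_map, ← alt_map]
    congr 1
    exact gen_rel (restr M (E a b {s, t})) ⟨s, hs⟩ ⟨t, ht⟩)

theorem toDL_gen (s : S) : toDL M a b (gen M s) =
    can M a b {s} (gen (restr M (E a b {s})) ⟨s, mem_E a b (by simp)⟩) := lift_gen _ _ _ _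

theorem toDL_inc (F : Finset S) (x : GE M a b F) :
    toDL M a b (inc M (E a b F) x) = can M a b F x := by
  have : (toDL M a b).comp (inc M (E a b F)) = can M a b F := by
    apply artin_hom_ext
    rintro ⟨s, hs⟩
    rw [MonoidHom.comp_apply, inc_gen, toDL_gen]
    exact can_gen M a b _ _ s _ _
  exact DFunLike.congr_fun this x

theorem ker_inc (F : Finset S) (x : GE M a b F) (h : inc M (E a b F) x = 1) :
    ∃ F', ∃ hF : F ≤ F', tr M a b F F' hF x = 1 := by
  have h1 : can M a b F x = 1 := by
    rw [← toDL_inc, h, map_one]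
  exact (DirectLimit.exists_eq_one (f := tr M a b) ⟨F, x⟩).1 h1

theorem surj_inc (y : Artin M) : ∃ (F : Finset S) (x : GE M a b F), inc M (E a b F) x = y := by
  have h : y ∈ (⊤ : Subgroup (Artin M)) := Subgroup.mem_top _
  rw [← PresentedGroup.closure_range_of (artinRels M)] at h
  induction h using Subgroup.closure_induction with
  | mem y hy =>
    obtain ⟨s, rfl⟩ := hy
    exact ⟨{s}, gen (restr M (E a b {s})) ⟨s, mem_E a b (by simp)⟩, inc_gen M _ s _⟩
  | one => exact ⟨∅, 1, map_one _⟩
  | mul y z _ _ ihy ihz =>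
    obtain ⟨F, x, hx⟩ := ihy
    obtain ⟨F', x', hx'⟩ := ihz
    have h1 : F ≤ F ∪ F' := Finset.subset_union_left
    have h2 : F' ≤ F ∪ F' := Finset.subset_union_right
    refine ⟨F ∪ F', tr M a b F _ h1 x * tr M a b F' _ h2 x', ?_⟩
    rw [map_mul, tr, tr, inc_mp, inc_mp, hx, hx']
  | inv y _ ih =>
    obtain ⟨F, x, hx⟩ := ih
    exact ⟨F, x⁻¹, by rw [map_inv, hx]⟩

end

theorem artin_mem_fin (hmain : MainStmt) {P : ∀ (G : Type) [Group G], Prop} (hP : Closed P)
    (hGL : ∀ (n K : Type) [Fintype n] [DecidableEq n] [Field K] [NumberField K],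
      P (GeneralLinearGroup n K))
    (S : Type) [Fintype S] (M : CoxeterMatrix S) (hM : ∀ s t, M.M s t ≠ 2)
    (hS : ∃ s t : S, s ≠ t) : P (Artin M) := by
  classical
  obtain ⟨X, hX⟩ := artin_sys M hM
  obtain ⟨K, hK, hK', f, hf⟩ := artin_rep M hM X hX
  apply hmain hP hS (Artin M) (GeneralLinearGroup S K) X
    (artin_sc M X hX) _ f hf (hGL S K)
  intro g T b c h
  rw [hX] at h ⊢
  unfold artinRel at h ⊢
  rw [smul_eq_mul, smul_eq_mul]
  have : (g * b)⁻¹ * (g * c) = b⁻¹ * c := by group
  rw [this]
  exact h

theorem artin_mem_of (hmain : MainStmt) {P : ∀ (G : Type) [Group G], Prop} (hP : Closed P)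
    (hGL : ∀ (n K : Type) [Fintype n] [DecidableEq n] [Field K] [NumberField K],
      P (GeneralLinearGroup n K))
    (S : Type) (M : CoxeterMatrix S) (hM : ∀ s t, M.M s t ≠ 2) : P (Artin M) := by
  classical
  by_cases hS : ∃ s t : S, s ≠ t
  · obtain ⟨a, b, hab⟩ := hS
    apply hP.colim (Finset S) (GE M a b) (tr M a b) (Artin M) (fun F => inc M (E a b F))
    · intro F x
      exact mp_refl M _ x
    · intro i j k hij hjk x
      exact mp_mp M _ _ _ x
    · intro i j h x
      exact inc_mp M _ x
    · exact surj_inc M a b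
    · exact ker_inc M a b
    · intro F
      exact artin_mem_fin hmain hP hGL _ (restr M (E a b F)) (fun s t => hM s.1 t.1)
        ⟨⟨a, by simp [E]⟩, ⟨b, by simp [E]⟩, fun h => hab (congrArg Subtype.val h)⟩
  · push Not at hS
    have hcomm : ∀ x y : Artin M, x * y = y * x := by
      intro x y
      have hx : x ∈ (⊤ : Subgroup (Artin M)) := Subgroup.mem_top _
      have hy : y ∈ (⊤ : Subgroup (Artin M)) := Subgroup.mem_top _
      rw [← PresentedGroup.closure_range_of (artinRels M)] at hx hy
      have hc : IsMulCommutative (Subgroup.closure (Set.range (PresentedGroup.of (rels := artinRels M)))) := by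
        apply Subgroup.isMulCommutative_closure
        rintro _ ⟨s, rfl⟩ _ ⟨t, rfl⟩
        rw [hS s t]
      have := hc.is_comm.comm ⟨x, hx⟩ ⟨y, hy⟩
      exact congrArg Subtype.val this
    let _ : CommGroup (Artin M) := { (inferInstance : Group (Artin M)) with mul_comm := hcomm }
    exact hP.comm (Artin M)

end Pool.Agent.helper50.LT
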