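import Pool.Agent.helper50.LT.GLdir

set_option autoImplicit false
set_option linter.unusedSectionVars false
set_option linter.unusedVariables false

/-!
Polynomial rings over number fields (module LT-T3F)
-/

namespace Pool.Agent.helper50.LT

open Pool.Agent.helper36.LT
open Matrix (GeneralLinearGroup)

variable {P : ∀ (G : Type) [Group G], Prop}

/-- the statement of module LT-T3E -/
def Gl3Poly (P : ∀ (G : Type) [Group G], Prop) : Prop := ∀ (D : Type) [CommRing D] [IsDomain D]
    (h : ∀ n : ℕ, ∃ (R : Type) (_ : CommRing R) (φ : Polynomial D →+* R),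
      P (GeneralLinearGroup (Fin 3) R) ∧
      ∀ p : Polynomial D, p.natDegree ≤ n → φ p = 0 → p = 0),
    P (GeneralLinearGroup (Fin 3) (Polynomial D))

theorem exists_large (K : Type) [Field K] [NumberField K] (n : ℕ) :
    ∃ (K' : Type) (_ : Field K') (_ : NumberField K') (ι : K →+* K') (θ : K'),
      ∀ q : Polynomial K, q.natDegree ≤ n → q.eval₂ ι θ = 0 → q = 0 := by
  obtain ⟨p, hp1, hp⟩ := Nat.exists_infinite_primes (Module.finrank ℚ K * n + 2)
  have : NeZero p := ⟨hp.ne_zero⟩
  have : NeZero (p : K) := ⟨by exact_mod_cast hp.ne_zero⟩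
  let K' := CyclotomicField p K
  let ζ : K' := IsCyclotomicExtension.zeta p K K'
  have hζ : IsPrimitiveRoot ζ p := IsCyclotomicExtension.zeta_spec p K K'
  refine ⟨K', inferInstance, inferInstance, algebraMap K K', ζ, ?_⟩
  intro q hq h0
  by_contra hne
  have hint : IsIntegral K ζ := hζ.isIntegral (by exact hp.pos) |>.tower_top
  have h1 : (minpoly K ζ).natDegree ≤ n := by
    refine le_trans ?_ hq
    exact Polynomial.natDegree_le_natDegree (minpoly.degree_le_of_ne_zero K ζ hne h0)
  let L := IntermediateField.adjoin K {ζ}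
  have h2 : Module.finrank K L = (minpoly K ζ).natDegree := IntermediateField.adjoin.finrank hint
  have : FiniteDimensional K L := IntermediateField.adjoin.finiteDimensional hint
  have h3 : Module.finrank ℚ K * Module.finrank K L = Module.finrank ℚ L :=
    Module.finrank_mul_finrank ℚ K L
  have : FiniteDimensional ℚ L := FiniteDimensional.trans ℚ K L
  let g : L := IntermediateField.AdjoinSimple.gen K ζ
  have h4 : minpoly ℚ g = minpoly ℚ ζ := by
    have : algebraMap L K' g = ζ := IntermediateField.AdjoinSimple.algebraMap_gen K ζ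
    rw [← this]
    exact (minpoly.algebraMap_eq (algebraMap L K').injective g).symm
  have h5 : (minpoly ℚ g).natDegree ≤ Module.finrank ℚ L := minpoly.natDegree_le g
  rw [h4, ← Polynomial.cyclotomic_eq_minpoly_rat hζ hp.pos, Polynomial.natDegree_cyclotomic,
    Nat.totient_prime hp, ← h3, h2] at h5
  have h6 : Module.finrank ℚ K * (minpoly K ζ).natDegree ≤ Module.finrank ℚ K * n :=
    Nat.mul_le_mul_left _ h1
  omega

theorem poly_inj {K K' : Type} [Field K] [Field K'] (ι : K →+* K') (θ : K') (n : ℕ)
    (h : ∀ q : Polynomial K, q.natDegree ≤ n → q.eval₂ ι θ = 0 → q = 0) (σ : Type)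
    (p : Polynomial (MvPolynomial σ K)) (hp : p.natDegree ≤ n)
    (h0 : p.eval₂ (MvPolynomial.map ι) (MvPolynomial.C θ) = 0) : p = 0 := by
  rw [Polynomial.eval₂_eq_sum_range' _ (Nat.lt_succ_of_le hp)] at h0
  ext i μ
  rw [Polynomial.coeff_zero, MvPolynomial.coeff_zero]
  by_cases hi : i ≤ n
  · let q : Polynomial K := ∑ j ∈ Finset.range (n + 1),
      Polynomial.C ((p.coeff j).coeff μ) * Polynomial.X ^ j
    have hqc : ∀ j, j ≤ n → q.coeff j = (p.coeff j).coeff μ := by
      intro j hj
      simp only [q, Polynomial.finsetSum_coeff, Polynomial.coeff_C_mul, Polynomial.coeff_X_pow,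
        mul_ite, mul_one, mul_zero]
      rw [Finset.sum_ite_eq, if_pos (Finset.mem_range.2 (by omega))]
    have hqd : q.natDegree ≤ n := by
      apply Polynomial.natDegree_sum_le_of_forall_le
      intro j hj
      refine (Polynomial.natDegree_C_mul_X_pow_le _ _).trans ?_
      have := Finset.mem_range.1 hj
      omega
    have hq0 : q.eval₂ ι θ = 0 := by
      have h1 := congrArg (MvPolynomial.coeff μ) h0
      rw [MvPolynomial.coeff_sum, MvPolynomial.coeff_zero] at h1
      rw [Polynomial.eval₂_finsetSum, ← h1]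
      apply Finset.sum_congr rfl
      intro j _
      rw [← MvPolynomial.C_pow, mul_comm (MvPolynomial.map ι (p.coeff j)),
        MvPolynomial.coeff_C_mul, MvPolynomial.coeff_map, Polynomial.eval₂_mul, Polynomial.eval₂_C,
        Polynomial.eval₂_pow, Polynomial.eval₂_X]
      exact mul_comm _ _
    have hq := h q hqd hq0
    rw [← hqc i hi, hq, Polynomial.coeff_zero]
  · rw [Polynomial.coeff_eq_zero_of_natDegree_lt (by omega), MvPolynomial.coeff_zero]

theorem gl3_fin (hP : Closed P) (hpoly : Gl3Poly P)
    (hGL : ∀ (K : Type) [Field K] [NumberField K], P (GeneralLinearGroup (Fin 3) K)) (m : ℕ) :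
    ∀ (K : Type) [Field K] [NumberField K],
      P (GeneralLinearGroup (Fin 3) (MvPolynomial (Fin m) K)) := by
  induction m with
  | zero =>
    intro K _ _
    let e : MvPolynomial (Fin 0) K ≃+* K := (MvPolynomial.isEmptyRingEquiv K (Fin 0))
    exact closed_inj hP (GeneralLinearGroup.map e.toRingHom)
      (GL_map_injective _ _ e.injective) (hGL K)
  | succ m ih =>
    intro K _ _
    let e : MvPolynomial (Fin (m + 1)) K ≃+* Polynomial (MvPolynomial (Fin m) K) :=
      (MvPolynomial.finSuccEquiv K m).toRingEquiv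
    apply closed_inj hP (GeneralLinearGroup.map e.toRingHom) (GL_map_injective _ _ e.injective)
    apply hpoly
    intro n
    obtain ⟨K', _, _, ι, θ, h⟩ := exists_large K n
    exact ⟨MvPolynomial (Fin m) K', inferInstance,
      Polynomial.eval₂RingHom (MvPolynomial.map ι) (MvPolynomial.C θ), ih K',
      fun p hp h0 => poly_inj ι θ n h _ p hp h0⟩

/-- LT-T3F (modulo T3-E) -/
theorem gl3_numberField_of (hP : Closed P) (hpoly : Gl3Poly P)
    (hGL : ∀ (K : Type) [Field K] [NumberField K], P (GeneralLinearGroup (Fin 3) K))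
    (K σ : Type) [Field K] [NumberField K] :
    P (GeneralLinearGroup (Fin 3) (MvPolynomial σ K)) := by
  classical
  apply closed_GL_union (Fin 3) hP (Finset σ) (fun F => MvPolynomial F K)
    (fun F => (MvPolynomial.rename (Subtype.val : F → σ) :
      MvPolynomial F K →ₐ[K] MvPolynomial σ K).toRingHom)
  · intro F
    exact MvPolynomial.rename_injective _ Subtype.val_injective
  · rintro F F' hF x ⟨q, rfl⟩
    refine ⟨MvPolynomial.rename (fun i : F => (⟨i.1, hF i.2⟩ : F')) q, ?_⟩
    exact MvPolynomial.rename_rename _ _ q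
  · intro x
    obtain ⟨F, q, hq⟩ := MvPolynomial.exists_finset_rename x
    exact ⟨F, q, hq.symm⟩
  · intro F
    let e : MvPolynomial F K ≃+* MvPolynomial (Fin (Fintype.card F)) K :=
      (MvPolynomial.renameEquiv K (Fintype.equivFin F)).toRingEquiv
    exact closed_inj hP (GeneralLinearGroup.map e.toRingHom)
      (GL_map_injective _ _ e.injective) (gl3_fin hP hpoly hGL _ K)

end Pool.Agent.helper50.LT
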