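import Pool.Agent.helper36.LT.LatDefs
import Pool.Agent.helper66.LT.Gal

set_option autoImplicit false
set_option linter.unusedSectionVars false
set_option linter.unusedVariables false

/-!
Lattice buildings: the chamber system (modules LT-T3A, LT-T3B)
-/

namespace Pool.Agent.helper50.LT

open Pool.Agent.helper36.LT Pool.Agent.helper66.LT

variable {V : Type} [SemilatticeSup V] (D : LatSys V)

/-- the shift as a permutation -/
def shp : Equiv.Perm V := ⟨D.sh, D.us, D.us_sh, D.sh_us⟩

theorem shp_apply (a : V) : shp D a = D.sh a := rfl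

theorem shp_inv_apply (a : V) : (shp D)⁻¹ a = D.us a := rfl

theorem shp_zpow_succ (k : ℤ) (a : V) : (shp D ^ (k + 1)) a = D.sh ((shp D ^ k) a) := by
  rw [add_comm, zpow_add, zpow_one]
  rfl

theorem shp_zpow_pred (k : ℤ) (a : V) : (shp D ^ (k - 1)) a = D.us ((shp D ^ k) a) := by
  have h := shp_zpow_succ D (k - 1) a
  rw [sub_add_cancel] at h
  rw [h, D.us_sh]

theorem shp_mono (k : ℤ) {a b : V} (h : a ≤ b) : (shp D ^ k) a ≤ (shp D ^ k) b := by
  induction k using Int.induction_on with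
  | zero => simpa using h
  | succ k ih =>
    rw [shp_zpow_succ, shp_zpow_succ]
    exact D.sh_mono _ _ ih
  | pred k ih =>
    rw [shp_zpow_pred, shp_zpow_pred]
    exact D.us_mono _ _ ih

theorem ind_us (a : V) : D.ind (D.us a) = D.ind a - 3 := by
  have := D.ind_sh (D.us a)
  rw [D.sh_us] at this
  omega

theorem shp_ind (k : ℤ) (a : V) : D.ind ((shp D ^ k) a) = D.ind a + 3 * k := by
  induction k using Int.induction_on with
  | zero => simp
  | succ k ih =>
    rw [shp_zpow_succ, D.ind_sh, ih]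
    ring
  | pred k ih =>
    rw [shp_zpow_pred, ind_us, ih]
    ring

theorem cham_add (c : Cham D) (i k : ℤ) : c.1 (i + 3 * k) = (shp D ^ k) (c.1 i) := by
  induction k using Int.induction_on with
  | zero => simp
  | succ k ih =>
    rw [shp_zpow_succ, ← ih, ← c.2.1, show i + 3 * ((k : ℤ) + 1) = i + 3 * k + 3 by ring]
  | pred k ih =>
    rw [shp_zpow_pred, ← ih]
    have h := c.2.1 (i + 3 * (-(k : ℤ) - 1))
    rw [show i + 3 * (-(k : ℤ) - 1) + 3 = i + 3 * -(k : ℤ) by ring] at h
    rw [h, D.us_sh]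

theorem cham_eq_of (c d : Cham D) {i j : ℤ} (h : c.1 i = d.1 i)
    (hij : (j : ZMod 3) = (i : ZMod 3)) : c.1 j = d.1 j := by
  rw [ZMod.intCast_eq_intCast_iff] at hij
  obtain ⟨k, hk⟩ := hij.symm.dvd
  have : j = i + 3 * k := by
    push_cast at hk
    omega
  rw [this, cham_add, cham_add, h]

theorem cham_anti (c : Cham D) (i : ℤ) (n : ℕ) : c.1 (i + n) ≤ c.1 i := by
  induction n with
  | zero => simp
  | succ n ih =>
    refine le_trans ?_ ih
    have := c.2.2.1 (i + n)
    rw [show i + ((n + 1 : ℕ) : ℤ) = i + n + 1 by push_cast; ring]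
    exact this

theorem square {x y p q : V} {i : ℤ} (hx : D.ind x = i + 1) (hy : D.ind y = i + 1)
    (hp : D.ind p = i + 2) (hq : D.ind q = i + 2) (h1 : p ≤ x) (h2 : p ≤ y) (h3 : q ≤ x)
    (h4 : q ≤ y) : x = y ∨ p = q := by
  have h5 : p ⊔ q ≤ x := sup_le h1 h3
  have h6 : p ⊔ q ≤ y := sup_le h2 h4
  have h7 := D.ind_anti _ _ h5
  have h8 := D.ind_anti _ _ (le_sup_left : p ≤ p ⊔ q)
  rcases eq_or_ne (D.ind (p ⊔ q)) (i + 2) with h | h
  · right
    have h9 : p = p ⊔ q := D.ind_eq _ _ le_sup_left (by rw [hp, h])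
    have h10 : q = p ⊔ q := D.ind_eq _ _ le_sup_right (by rw [hq, h])
    exact h9.trans h10.symm
  · left
    have h9 : D.ind (p ⊔ q) = i + 1 := by omega
    have h10 : p ⊔ q = x := D.ind_eq _ _ h5 (by rw [h9, hx])
    have h11 : p ⊔ q = y := D.ind_eq _ _ h6 (by rw [h9, hy])
    exact h10.symm.trans h11

theorem third (s t : ZMod 3) (hst : s ≠ t) : ∃ i : ℤ, ((i : ℤ) : ZMod 3) ≠ s ∧ ((i : ℤ) : ZMod 3) ≠ t ∧
    ((((i + 1 : ℤ) : ZMod 3) = s ∧ ((i + 2 : ℤ) : ZMod 3) = t) ∨
      (((i + 1 : ℤ) : ZMod 3) = t ∧ ((i + 2 : ℤ) : ZMod 3) = s)) := by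
  have key : ∀ s t : ZMod 3, s ≠ t → ∃ u : ZMod 3, u ≠ s ∧ u ≠ t ∧
      ((u + 1 = s ∧ u + 2 = t) ∨ (u + 1 = t ∧ u + 2 = s)) := by decide
  obtain ⟨u, h1, h2, h3⟩ := key s t hst
  refine ⟨(u.val : ℤ), ?_, ?_, ?_⟩
  · simpa using h1
  · simpa using h2
  · simpa using h3

/-- T3-A -/
theorem lat_sys {V : Type} [SemilatticeSup V] (D : LatSys V) :
    ∃ X : Sys (ZMod 3) (Cham D), X.r = chamRel D := by
  refine ⟨{ r := chamRel D, refl := ?_, symm := ?_, trans := ?_, mono := ?_, zero := ?_, two := ?_, four := ?_ }, rfl⟩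
  · intro T b _ i _
    rfl
  · intro T b c _ h i hi
    exact (h i hi).symm
  · intro T b c d _ h h' i hi
    exact (h i hi).trans (h' i hi)
  · intro T T' b c hT _ _ h i hi
    exact h i (fun h => hi (hT h))
  · intro b c h
    apply Subtype.ext
    funext i
    exact h i (Set.notMem_empty _)
  · intro s t b c hst h h'
    apply Subtype.ext
    funext i
    by_cases hi : (i : ZMod 3) = s
    · exact h' i (fun h => hst (hi.symm.trans h))
    · exact h i hi
  · intro s t a b c d hst hab hbc hcd hda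
    obtain ⟨i, h1, h2, h3⟩ := third s t hst
    -- values at the type s: a = d, b = c; at the type t: a = b, c = d; at the third type all agree
    have hu : ∀ j : ℤ, (j : ZMod 3) ≠ s → (j : ZMod 3) ≠ t → a.1 j = b.1 j ∧ b.1 j = c.1 j :=
      fun j hs ht => ⟨hab j hs, hbc j ht⟩
    rcases h3 with ⟨h3, h4⟩ | ⟨h3, h4⟩
    · have ha1 : d.1 (i + 1) = a.1 (i + 1) := hda _ (fun h => hst (h3.symm.trans h))
      have hb1 : b.1 (i + 1) = c.1 (i + 1) := hbc _ (fun h => hst (h3.symm.trans h))
      have ha2 : a.1 (i + 2) = b.1 (i + 2) := hab _ (fun h => hst (h.symm.trans h4))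
      have hc2 : c.1 (i + 2) = d.1 (i + 2) := hcd _ (fun h => hst (h.symm.trans h4))
      have hle : ∀ e : Cham D, e.1 (i + 2) ≤ e.1 (i + 1) := fun e => by
        have := e.2.2.1 (i + 1)
        rwa [show i + 1 + 1 = i + 2 by ring] at this
      rcases square D (a.2.2.2 (i + 1)) (b.2.2.2 (i + 1)) (a.2.2.2 (i + 2)) (c.2.2.2 (i + 2))
        (hle a) (by rw [ha2]; exact hle b) (by rw [hc2, ← ha1]; exact hle d)
        (by rw [hb1]; exact hle c) with h | h
      · left
        apply Subtype.ext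
        funext j
        by_cases hj : (j : ZMod 3) = s
        · exact cham_eq_of D a b h (hj.trans h3.symm)
        · exact hab j hj
      · right
        apply Subtype.ext
        funext j
        by_cases hj : (j : ZMod 3) = t
        · exact cham_eq_of D b c (ha2.symm.trans h) (hj.trans h4.symm)
        · exact hbc j hj
    · have ha1 : a.1 (i + 1) = b.1 (i + 1) := hab _ (fun h => hst (h.symm.trans h3))
      have hc1 : c.1 (i + 1) = d.1 (i + 1) := hcd _ (fun h => hst (h.symm.trans h3))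
      have ha2 : d.1 (i + 2) = a.1 (i + 2) := hda _ (fun h => hst (h4.symm.trans h))
      have hb2 : b.1 (i + 2) = c.1 (i + 2) := hbc _ (fun h => hst (h4.symm.trans h))
      have hle : ∀ e : Cham D, e.1 (i + 2) ≤ e.1 (i + 1) := fun e => by
        have := e.2.2.1 (i + 1)
        rwa [show i + 1 + 1 = i + 2 by ring] at this
      rcases square D (a.2.2.2 (i + 1)) (c.2.2.2 (i + 1)) (a.2.2.2 (i + 2)) (b.2.2.2 (i + 2))
        (hle a) (by rw [← ha2, hc1]; exact hle d) (by rw [ha1]; exact hle b)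
        (by rw [hb2]; exact hle c) with h | h
      · right
        apply Subtype.ext
        funext j
        by_cases hj : (j : ZMod 3) = t
        · exact cham_eq_of D b c (ha1.symm.trans h) (hj.trans h3.symm)
        · exact hbc j hj
      · left
        apply Subtype.ext
        funext j
        by_cases hj : (j : ZMod 3) = s
        · exact cham_eq_of D a b h (hj.trans h4.symm)
        · exact hab j hj

end Pool.Agent.helper50.LT
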