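import Pool.Agent.helper50.LT.Lat

set_option autoImplicit false
set_option linter.unusedSectionVars false
set_option linter.unusedVariables false

/-!
Lattice buildings are simply connected (module LT-T3B)
-/

namespace Pool.Agent.helper50.LT

open Pool.Agent.helper36.LT Pool.Agent.helper66.LT

variable {V : Type} [SemilatticeSup V] (D : LatSys V)

/-! ### chambers containing a chain -/

/-- a full chain from `b` down to `a` -/
def Full (b a : V) (f : ℤ → V) : Prop :=
  f (D.ind b) = b ∧ f (D.ind a) = a ∧ (∀ j, D.ind b ≤ j → j < D.ind a → f (j + 1) ≤ f j) ∧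
    ∀ j, D.ind b ≤ j → j ≤ D.ind a → D.ind (f j) = j

theorem exists_full (n : ℕ) : ∀ a b : V, a ≤ b → D.ind a - D.ind b = n → ∃ f, Full D b a f := by
  induction n with
  | zero =>
    intro a b hab h
    have h1 : D.ind a = D.ind b := by simpa [sub_eq_zero] using h
    have h2 : a = b := D.ind_eq _ _ hab h1
    subst h2
    exact ⟨fun _ => a, rfl, rfl, fun j h3 h4 => le_rfl, fun j h3 h4 => le_antisymm h3 h4⟩
  | succ n ih =>
    intro a b hab h
    obtain ⟨c, h1, h2, h3⟩ := D.refine a b hab (by omega)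
    obtain ⟨f, h4, h5, h6, h7⟩ := ih a c h1 (by push_cast at h; omega)
    push_cast at h
    refine ⟨fun j => if j ≤ D.ind b then b else f j, if_pos le_rfl, ?_, ?_, ?_⟩
    · simp only
      rw [if_neg (by omega), h5]
    · intro j h8 h9
      simp only
      rw [if_neg (by omega)]
      by_cases hj : j ≤ D.ind b
      · have : j = D.ind b := by omega
        subst this
        rw [if_pos le_rfl, ← h3, h4]
        exact h2
      · rw [if_neg hj]
        exact h6 j (by omega) h9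
    · intro j h8 h9
      simp only
      by_cases hj : j ≤ D.ind b
      · rw [if_pos hj]
        omega
      · rw [if_neg hj]
        exact h7 j (by omega) h9

theorem exists_full' {a b : V} (hab : a ≤ b) : ∃ f, Full D b a f := by
  have h := D.ind_anti _ _ hab
  exact exists_full D (D.ind a - D.ind b).toNat a b hab (by omega)

theorem full_concat {b m a : V} {f g : ℤ → V} (hf : Full D b m f) (hg : Full D m a g)
    (hbm : m ≤ b) (hma : a ≤ m) : Full D b a (fun j => if j ≤ D.ind m then f j else g j) := by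
  obtain ⟨f1, f2, f3, f4⟩ := hf
  obtain ⟨g1, g2, g3, g4⟩ := hg
  have h1 := D.ind_anti _ _ hbm
  have h2 := D.ind_anti _ _ hma
  refine ⟨?_, ?_, ?_, ?_⟩
  · simp only
    rw [if_pos h1, f1]
  · simp only
    by_cases h : D.ind a ≤ D.ind m
    · have h3 : D.ind a = D.ind m := by omega
      have h4 : a = m := D.ind_eq _ _ hma h3
      rw [if_pos h, h4, f2]
    · rw [if_neg h, g2]
  · intro j h3 h4
    simp only
    by_cases h : j + 1 ≤ D.ind m
    · rw [if_pos h, if_pos (by omega)]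
      exact f3 j h3 (by omega)
    · by_cases h' : j ≤ D.ind m
      · have : j = D.ind m := by omega
        subst this
        rw [if_neg h, if_pos le_rfl, f2]
        have := g3 _ le_rfl h4
        rwa [g1] at this
      · rw [if_neg h, if_neg h']
        exact g3 j (by omega) h4
  · intro j h3 h4
    simp only
    by_cases h' : j ≤ D.ind m
    · rw [if_pos h']
      exact f4 j h3 h'
    · rw [if_neg h']
      exact g4 j (by omega) h4

/-- the chamber contains the lattice -/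
def Cont (c : Cham D) (L : V) : Prop := c.1 (D.ind L) = L

theorem cont_self (c : Cham D) (i : ℤ) : Cont D c (c.1 i) := by
  unfold Cont
  rw [c.2.2.2 i]

theorem exists_cham_of_full {b : V} {f : ℤ → V} (h : Full D b (D.sh b) f) :
    ∃ c : Cham D, ∀ j, D.ind b ≤ j → j ≤ D.ind b + 3 → c.1 j = f j := by
  obtain ⟨h1, h2, h3, h4⟩ := h
  rw [D.ind_sh] at h2 h3 h4
  set i0 := D.ind b with hi0
  let c : ℤ → V := fun j => (shp D ^ ((j - i0) / 3)) (f (i0 + (j - i0) % 3))
  have hc : ∀ j, i0 ≤ j → j ≤ i0 + 3 → c j = f j := by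
    intro j h5 h6
    by_cases h7 : j = i0 + 3
    · have h8 : (j - i0) / 3 = 1 := by omega
      have h9 : (j - i0) % 3 = 0 := by omega
      simp only [c]
      rw [h8, h9, add_zero, zpow_one, h1, h7, h2]
      rfl
    · have h8 : (j - i0) / 3 = 0 := by omega
      have h9 : i0 + (j - i0) % 3 = j := by omega
      simp only [c]
      rw [h8, h9, zpow_zero]
      rfl
  refine ⟨⟨c, ?_, ?_, ?_⟩, hc⟩
  · intro j
    simp only [c]
    have h8 : (j + 3 - i0) / 3 = (j - i0) / 3 + 1 := by omega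
    have h9 : (j + 3 - i0) % 3 = (j - i0) % 3 := by omega
    rw [h8, h9, shp_zpow_succ]
  · intro j
    by_cases h7 : (j - i0) % 3 = 2
    · have h8 : (j + 1 - i0) / 3 = (j - i0) / 3 + 1 := by omega
      have h9 : (j + 1 - i0) % 3 = 0 := by omega
      simp only [c]
      rw [h8, h9, h7, zpow_add, zpow_one]
      refine shp_mono D ((j - i0) / 3) ?_
      rw [shp_apply, add_zero, h1, ← h2]
      have := h3 (i0 + 2) (by omega) (by omega)
      rwa [show i0 + 2 + 1 = i0 + 3 by ring] at this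
    · have h8 : (j + 1 - i0) / 3 = (j - i0) / 3 := by omega
      have h9 : (j + 1 - i0) % 3 = (j - i0) % 3 + 1 := by omega
      simp only [c]
      rw [h8, h9, ← add_assoc]
      refine shp_mono D ((j - i0) / 3) ?_
      exact h3 _ (by omega) (by omega)
  · intro j
    simp only [c]
    rw [shp_ind, h4 _ (by omega) (by omega)]
    omega

theorem exists_cham {L A B : V} (h1 : A ≤ L) (h2 : B ≤ A) (h3 : D.sh L ≤ B) :
    ∃ c : Cham D, Cont D c L ∧ Cont D c A ∧ Cont D c B := by
  obtain ⟨f, hf⟩ := exists_full' D h1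
  obtain ⟨g, hg⟩ := exists_full' D h2
  obtain ⟨k, hk⟩ := exists_full' D h3
  have h4 := full_concat D hg hk h2 h3
  have h5 := full_concat D hf h4 h1 (h3.trans h2)
  obtain ⟨c, hc⟩ := exists_cham_of_full D h5
  have i1 := D.ind_anti _ _ h1
  have i2 := D.ind_anti _ _ h2
  have i3 := D.ind_anti _ _ h3
  rw [D.ind_sh] at i3
  refine ⟨c, ?_, ?_, ?_⟩
  · unfold Cont
    rw [hc _ le_rfl (by omega), if_pos i1]
    exact hf.1
  · unfold Cont
    rw [hc _ i1 (by omega), if_pos le_rfl]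
    exact hf.2.1
  · unfold Cont
    rw [hc _ (by omega) (by omega)]
    by_cases h : D.ind B ≤ D.ind A
    · have h6 : D.ind B = D.ind A := by omega
      have h7 : B = A := D.ind_eq _ _ h2 h6
      rw [if_pos h, h7]
      exact hf.2.1
    · rw [if_neg h, if_pos le_rfl]
      exact hg.2.1

/-! ### steps -/

/-- the type of the steps preserving a lattice -/
def ty (L : V) : Set (ZMod 3) := {x | x ≠ (D.ind L : ZMod 3)}

theorem isTy_ty (L : V) : IsTy (ty D L) := by
  right
  right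
  have key : ∀ k : ZMod 3, k + 1 ≠ k + 2 ∧ ∀ x : ZMod 3, x ≠ k ↔ (x = k + 1 ∨ x = k + 2) := by
    decide
  obtain ⟨h1, h2⟩ := key (D.ind L : ZMod 3)
  refine ⟨_, _, h1, ?_⟩
  ext x
  exact h2 x

theorem isTy_outside {T : Set (ZMod 3)} (hT : IsTy T) : ∃ i : ℤ, 0 ≤ i ∧ i ≤ 2 ∧
    ((i : ℤ) : ZMod 3) ∉ T := by
  have key0 : ∀ s t : ZMod 3, ∃ u : ZMod 3, u ≠ s ∧ u ≠ t := by decide
  have key : ∀ s t : ZMod 3, ∃ i : ℤ, 0 ≤ i ∧ i ≤ 2 ∧ ((i : ℤ) : ZMod 3) ≠ s ∧
      ((i : ℤ) : ZMod 3) ≠ t := by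
    intro s t
    obtain ⟨u, h1, h2⟩ := key0 s t
    refine ⟨(u.val : ℤ), by positivity, ?_, ?_, ?_⟩
    · have := u.val_lt
      omega
    · simpa using h1
    · simpa using h2
  rcases hT with rfl | ⟨s, rfl⟩ | ⟨s, t, _, rfl⟩
  · exact ⟨0, le_rfl, by norm_num, Set.notMem_empty _⟩
  · obtain ⟨i, h0, h1, h2, h3⟩ := key s s
    exact ⟨i, h0, h1, h2⟩
  · obtain ⟨i, h0, h1, h2, h3⟩ := key s t
    refine ⟨i, h0, h1, ?_⟩
    rintro (h | h)
    · exact h2 h
    · exact h3 h

theorem isTy_inter {T T' : Set (ZMod 3)} (hT : IsTy T) : IsTy (T ∩ T') := by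
  rcases hT with rfl | ⟨s, rfl⟩ | ⟨s, t, hst, rfl⟩
  · left
    simp
  · by_cases h : s ∈ T'
    · right
      left
      exact ⟨s, Set.inter_eq_left.2 (Set.singleton_subset_iff.2 h)⟩
    · left
      exact Set.singleton_inter_eq_empty.2 h
  · by_cases h : s ∈ T'
    · by_cases h' : t ∈ T'
      · right
        right
        refine ⟨s, t, hst, Set.inter_eq_left.2 ?_⟩
        rintro x (rfl | rfl) <;> assumption
      · right
        left
        refine ⟨s, ?_⟩
        ext x
        simp only [Set.mem_inter_iff, Set.mem_insert_iff, Set.mem_singleton_iff]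
        constructor
        · rintro ⟨rfl | rfl, h2⟩
          · rfl
          · exact absurd h2 h'
        · rintro rfl
          exact ⟨Or.inl rfl, h⟩
    · by_cases h' : t ∈ T'
      · right
        left
        refine ⟨t, ?_⟩
        ext x
        simp only [Set.mem_inter_iff, Set.mem_insert_iff, Set.mem_singleton_iff]
        constructor
        · rintro ⟨rfl | rfl, h2⟩
          · exact absurd h2 h
          · rfl
        · rintro rfl
          exact ⟨Or.inr rfl, h'⟩
      · left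
        ext x
        simp only [Set.mem_inter_iff, Set.mem_insert_iff, Set.mem_singleton_iff,
          Set.mem_empty_iff_false, iff_false, not_and]
        rintro (rfl | rfl) <;> assumption

section sc

variable {D} {X : Sys (ZMod 3) (Cham D)} (hX : X.r = chamRel D)

include hX

theorem rel_ty {c d : Cham D} {L : V} (hc : Cont D c L) (hd : Cont D d L) : X.r (ty D L) c d := by
  rw [hX]
  intro i hi
  have h1 : (i : ZMod 3) = (D.ind L : ZMod 3) := by
    by_contra h
    exact hi h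
  exact cham_eq_of D c d (hc.trans hd.symm) h1

theorem hom_step {c d : Cham D} {T T' : Set (ZMod 3)} (hT : IsTy T) (hT' : IsTy T')
    (h : X.r T c d) (h' : X.r T' c d) (l : List (Set (ZMod 3) × Cham D)) :
    Hom X c ((T, d) :: l) ((T', d) :: l) := by
  have h1 : X.r (T ∩ T') c d := by
    rw [hX] at h h' ⊢
    intro i hi
    by_cases h2 : (i : ZMod 3) ∈ T
    · exact h' i (fun h3 => hi ⟨h2, h3⟩)
    · exact h i h2
  exact Hom.trans _ _ _ _
    (Hom.symm _ _ _ (Hom.sub _ _ _ _ _ (isTy_inter hT) hT Set.inter_subset_left h1))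
    (Hom.sub _ _ _ _ _ (isTy_inter hT) hT' Set.inter_subset_right h1)

omit hX in
/-- a chamber containing two lattices -/
theorem exists_cham2 {L L' : V} (h1 : L' ≤ L) (h2 : D.sh L ≤ L') :
    ∃ c : Cham D, Cont D c L ∧ Cont D c L' := by
  obtain ⟨c, h3, h4, h5⟩ := exists_cham D h1 le_rfl h2
  exact ⟨c, h3, h4⟩

open Classical in
/-- a chosen chamber containing two lattices -/
noncomputable def ch (c0 : Cham D) (L L' : V) : Cham D :=
  if h : ∃ c : Cham D, Cont D c L ∧ Cont D c L' then h.choose else c0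

omit hX in
theorem ch_spec (c0 : Cham D) {L L' : V} (h : ∃ c : Cham D, Cont D c L ∧ Cont D c L') :
    Cont D (ch c0 L L') L ∧ Cont D (ch c0 L L') L' := by
  unfold ch
  rw [dif_pos h]
  exact h.choose_spec

/-- the galleries -/
noncomputable def alp (c0 : Cham D) (top : V) : ℕ → V → Cham D → List (Set (ZMod 3) × Cham D)
  | 0, L, c => [(ty D L, c)]
  | j + 1, L, c => alp c0 top j (L ⊔ D.sh^[j] top) (ch c0 (L ⊔ D.sh^[j] top) L) ++ [(ty D L, c)]

omit hX in
theorem alp_succ (c0 : Cham D) (top : V) (j : ℕ) (L : V) (c : Cham D) :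
    alp c0 top (j + 1) L c =
      alp c0 top j (L ⊔ D.sh^[j] top) (ch c0 (L ⊔ D.sh^[j] top) L) ++ [(ty D L, c)] := rfl

/-- in range -/
def Rg (D : LatSys V) (top : V) (j : ℕ) (L : V) : Prop := D.sh^[j] top ≤ L ∧ L ≤ top

omit hX in
theorem sh_iter_le (top : V) (j : ℕ) : D.sh^[j] top ≤ top := by
  induction j with
  | zero => exact le_rfl
  | succ j ih =>
    rw [Function.iterate_succ_apply']
    exact (D.sh_le _).trans ih

omit hX in
theorem sh_sup_le {a b x : V} (h1 : D.sh a ≤ x) (h2 : D.sh b ≤ x) : D.sh (a ⊔ b) ≤ x := by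
  have h3 : a ⊔ b ≤ D.us x := by
    apply sup_le
    · have := D.us_mono _ _ h1
      rwa [D.us_sh] at this
    · have := D.us_mono _ _ h2
      rwa [D.us_sh] at this
  have := D.sh_mono _ _ h3
  rwa [D.sh_us] at this

omit hX in
theorem rg_sup {top : V} {j : ℕ} {L : V} (h : Rg D top (j + 1) L) :
    Rg D top j (L ⊔ D.sh^[j] top) := ⟨le_sup_right, sup_le h.2 (sh_iter_le top j)⟩

omit hX in
theorem sh_plus_le {top : V} {j : ℕ} {L L' : V} (h : Rg D top (j + 1) L') (h' : D.sh L ≤ L') :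
    D.sh (L ⊔ D.sh^[j] top) ≤ L' := by
  apply sh_sup_le h'
  have := h.1
  rwa [Function.iterate_succ_apply'] at this

omit hX in
theorem ch_plus (c0 : Cham D) {top : V} {j : ℕ} {L : V} (h : Rg D top (j + 1) L) :
    Cont D (ch c0 (L ⊔ D.sh^[j] top) L) (L ⊔ D.sh^[j] top) ∧
      Cont D (ch c0 (L ⊔ D.sh^[j] top) L) L :=
  ch_spec c0 (exists_cham2 le_sup_left (sh_plus_le h (D.sh_le L)))

theorem alp_valid (c0 : Cham D) {top : V} (h0 : Cont D c0 top) (j : ℕ) :
    ∀ (L : V) (c : Cham D), Rg D top j L → Cont D c L →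
      IsGal X c0 (alp c0 top j L c) ∧ fin c0 (alp c0 top j L c) = c := by
  induction j with
  | zero =>
    intro L c h hc
    have h1 : L = top := le_antisymm h.2 h.1
    subst h1
    exact ⟨⟨isTy_ty D L, rel_ty hX h0 hc, trivial⟩, rfl⟩
  | succ j ih =>
    intro L c h hc
    obtain ⟨h1, h2⟩ := ch_plus c0 h
    obtain ⟨h3, h4⟩ := ih _ _ (rg_sup h) h1
    refine ⟨?_, ?_⟩
    · unfold alp
      rw [isGal_append]
      refine ⟨h3, isTy_ty D L, ?_, trivial⟩
      rw [h4]
      exact rel_ty hX h2 hc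
    · unfold alp
      rw [fin_append]
      rfl

theorem alp_a (c0 : Cham D) {top : V} (h0 : Cont D c0 top) (j : ℕ) (L : V) (c c' : Cham D)
    (h : Rg D top j L) (hc : Cont D c L) (hc' : Cont D c' L) :
    Hom X c0 (alp c0 top j L c ++ [(ty D L, c')]) (alp c0 top j L c') := by
  cases j with
  | zero =>
    have h1 : L = top := le_antisymm h.2 h.1
    subst h1
    exact Hom.comp _ _ _ _ _ (isTy_ty D L) (rel_ty hX h0 hc) (rel_ty hX hc hc')
  | succ j =>
    obtain ⟨h1, h2⟩ := ch_plus c0 h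
    obtain ⟨h3, h4⟩ := alp_valid hX c0 h0 j _ _ (rg_sup h) h1
    unfold alp
    rw [List.append_assoc]
    apply hom_append_left
    rw [h4]
    exact Hom.comp _ _ _ _ _ (isTy_ty D L) (rel_ty hX h2 hc) (rel_ty hX hc hc')

/-- replacing the chosen chamber -/
theorem alp_c (c0 : Cham D) {top : V} (h0 : Cont D c0 top) (j : ℕ) (L : V) (c e : Cham D)
    (h : Rg D top (j + 1) L) (hc : Cont D c L) (he : Cont D e L)
    (he' : Cont D e (L ⊔ D.sh^[j] top)) :
    Hom X c0 (alp c0 top (j + 1) L c) (alp c0 top j (L ⊔ D.sh^[j] top) e ++ [(ty D L, c)]) := by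
  obtain ⟨h1, h2⟩ := ch_plus c0 h
  obtain ⟨h3, h4⟩ := alp_valid hX c0 h0 j _ _ (rg_sup h) h1
  have h5 := alp_a hX c0 h0 j _ _ e (rg_sup h) h1 he'
  have h6 := hom_append_right h5 [(ty D L, c)]
  refine Hom.trans _ _ _ _ (Hom.symm _ _ _ ?_) h6
  rw [alp_succ, List.append_assoc]
  apply hom_append_left
  rw [h4]
  refine Hom.trans _ _ _ _ (hom_step hX (isTy_ty D _) (isTy_ty D L) (rel_ty hX h1 he')
    (rel_ty hX h2 he) _) ?_
  exact Hom.comp _ _ _ _ _ (isTy_ty D L) (rel_ty hX h2 he) (rel_ty hX he hc)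

theorem alp_b (c0 : Cham D) {top : V} (h0 : Cont D c0 top) (j : ℕ) :
    ∀ (L L' : V) (c : Cham D), Rg D top j L → Rg D top j L' → L' ≤ L → D.sh L ≤ L' →
      Cont D c L → Cont D c L' → Hom X c0 (alp c0 top j L c) (alp c0 top j L' c) := by
  induction j with
  | zero =>
    intro L L' c h h' _ _ hc hc'
    have h1 : L = top := le_antisymm h.2 h.1
    have h2 : L' = top := le_antisymm h'.2 h'.1
    rw [h1, h2]
    exact Hom.refl _ _
  | succ j ih =>
    intro L L' c h h' hL hsh hc hc'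
    -- e contains L', L, L+ ; e' contains L', L'+, L+
    have hP : L' ⊔ D.sh^[j] top ≤ L ⊔ D.sh^[j] top := sup_le_sup_right hL _
    have hsh1 : D.sh (L ⊔ D.sh^[j] top) ≤ L' := sh_plus_le h' hsh
    obtain ⟨e, e1, e2, e3⟩ := exists_cham D (L := L ⊔ D.sh^[j] top) le_sup_left hL hsh1
    obtain ⟨e', f1, f2, f3⟩ := exists_cham D (L := L ⊔ D.sh^[j] top) hP le_sup_left hsh1
    have g1 := alp_c hX c0 h0 j L c e h hc e2 e1
    have g2 := alp_c hX c0 h0 j L' c e' h' hc' f3 f2
    have g3 := hom_append_right (ih _ _ e' (rg_sup h) (rg_sup h') hP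
      (hsh1.trans le_sup_left) f1 f2) [(ty D L', c)]
    have g4 := hom_append_right (alp_a hX c0 h0 j _ e e' (rg_sup h) e1 f1) [(ty D L', c)]
    obtain ⟨v1, v2⟩ := alp_valid hX c0 h0 j _ e (rg_sup h) e1
    have g5 : Hom X c0 (alp c0 top j (L ⊔ D.sh^[j] top) e ++ [(ty D (L ⊔ D.sh^[j] top), e')] ++
        [(ty D L', c)]) (alp c0 top j (L ⊔ D.sh^[j] top) e ++ [(ty D L, c)]) := by
      rw [List.append_assoc]
      apply hom_append_left
      rw [v2]
      refine Hom.trans _ _ _ _ (hom_step hX (isTy_ty D _) (isTy_ty D L') (rel_ty hX e1 f1)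
        (rel_ty hX e3 f3) _) ?_
      refine Hom.trans _ _ _ _ (Hom.comp _ _ _ _ _ (isTy_ty D L') (rel_ty hX e3 f3)
        (rel_ty hX f3 hc')) ?_
      exact hom_step hX (isTy_ty D _) (isTy_ty D L) (rel_ty hX e3 hc') (rel_ty hX e2 hc) _
    -- assemble
    refine Hom.trans _ _ _ _ g1 (Hom.trans _ _ _ _ (Hom.symm _ _ _ g5) ?_)
    refine Hom.trans _ _ _ _ g4 (Hom.trans _ _ _ _ g3 (Hom.symm _ _ _ g2))

/-- all lattices of the chamber with index `0, 1, 2` are in range -/
def Gd (D : LatSys V) (top : V) (j : ℕ) (c : Cham D) : Prop :=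
  ∀ i : ℤ, 0 ≤ i → i ≤ 2 → Rg D top j (c.1 i)

theorem alp_switch (c0 : Cham D) {top : V} (h0 : Cont D c0 top) (j : ℕ) (c : Cham D)
    (hc : Gd D top j c) (i : ℤ) (hi0 : 0 ≤ i) (hi2 : i ≤ 2) :
    Hom X c0 (alp c0 top j (c.1 0) c) (alp c0 top j (c.1 i) c) := by
  obtain ⟨n, rfl⟩ := Int.eq_ofNat_of_zero_le hi0
  apply alp_b hX c0 h0 j _ _ c (hc 0 le_rfl (by norm_num)) (hc _ hi0 hi2) _ _ (cont_self D c _)
    (cont_self D c _)
  · have := cham_anti D c 0 n
    rwa [zero_add] at this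
  · have h1 := c.2.1 0
    rw [← h1]
    have := cham_anti D c (n : ℤ) (3 - n)
    rwa [show (n : ℤ) + ((3 - n : ℕ) : ℤ) = 0 + 3 by omega] at this

theorem alp_step (c0 : Cham D) {top : V} (h0 : Cont D c0 top) (j : ℕ) (c c' : Cham D)
    (hc : Gd D top j c) (hc' : Gd D top j c') (T : Set (ZMod 3)) (hT : IsTy T)
    (h : X.r T c c') :
    Hom X c0 (alp c0 top j (c.1 0) c ++ [(T, c')]) (alp c0 top j (c'.1 0) c') := by
  obtain ⟨i, hi0, hi2, hi⟩ := isTy_outside hT
  have hL : c.1 i = c'.1 i := by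
    have h1 := h
    rw [hX] at h1
    exact h1 i hi
  have hR := hc i hi0 hi2
  obtain ⟨v1, v2⟩ := alp_valid hX c0 h0 j _ c hR (cont_self D c i)
  have hcc' : Cont D c' (c.1 i) := by
    rw [hL]
    exact cont_self D c' i
  refine Hom.trans _ _ _ _ (hom_append_right (alp_switch hX c0 h0 j c hc i hi0 hi2) _) ?_
  have h2 : Hom X c0 (alp c0 top j (c.1 i) c ++ [(T, c')])
      (alp c0 top j (c.1 i) c ++ [(ty D (c.1 i), c')]) := by
    apply hom_append_left
    rw [v2]
    exact hom_step hX hT (isTy_ty D _) h (rel_ty hX (cont_self D c i) hcc') _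
  refine Hom.trans _ _ _ _ h2 ?_
  refine Hom.trans _ _ _ _ (alp_a hX c0 h0 j _ c c' hR (cont_self D c i) hcc') ?_
  rw [hL]
  exact Hom.symm _ _ _ (alp_switch hX c0 h0 j c' hc' i hi0 hi2)

theorem alp_gal (c0 : Cham D) {top : V} (h0 : Cont D c0 top) (j : ℕ)
    (l : List (Set (ZMod 3) × Cham D)) :
    ∀ (a : Cham D), Gd D top j a → IsGal X a l → (∀ x ∈ l, Gd D top j x.2) →
    Hom X c0 (alp c0 top j (a.1 0) a ++ l) (alp c0 top j ((fin a l).1 0) (fin a l)) := by
  induction l with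
  | nil =>
    intro a ha _ _
    rw [List.append_nil]
    exact Hom.refl _ _
  | cons x l ih =>
    intro a ha hg hl
    have h1 := alp_step hX c0 h0 j a x.2 ha (hl x (by simp)) x.1 hg.1 hg.2.1
    have h2 := hom_append_right h1 l
    rw [List.append_assoc] at h2
    refine Hom.trans _ _ _ _ h2 ?_
    exact ih x.2 (hl x (by simp)) hg.2.2 (fun y hy => hl y (by simp [hy]))

end sc

/-! ### the range -/

theorem us_iter (a : V) (n : ℕ) : D.us^[n] a = (shp D ^ (-(n : ℤ))) a := by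
  induction n with
  | zero => simp
  | succ n ih =>
    rw [Function.iterate_succ_apply', ih, ← shp_zpow_pred]
    congr 2
    push_cast
    ring

theorem sh_iter (a : V) (n : ℕ) : D.sh^[n] a = (shp D ^ (n : ℤ)) a := by
  induction n with
  | zero => simp
  | succ n ih =>
    rw [Function.iterate_succ_apply', ih, ← shp_zpow_succ]
    push_cast
    rfl

theorem le_us (a : V) : a ≤ D.us a := by
  have := D.us_mono _ _ (D.sh_le a)
  rwa [D.us_sh] at this

theorem us_iter_mono (a : V) {m n : ℕ} (h : m ≤ n) : D.us^[m] a ≤ D.us^[n] a := by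
  obtain ⟨k, rfl⟩ := Nat.exists_eq_add_of_le h
  induction k with
  | zero => exact le_rfl
  | succ k ih =>
    rw [← add_assoc, Function.iterate_succ_apply']
    exact (ih (Nat.le_add_right _ _)).trans (le_us D _)

theorem sh_iter_anti (a : V) {m n : ℕ} (h : m ≤ n) : D.sh^[n] a ≤ D.sh^[m] a := by
  obtain ⟨k, rfl⟩ := Nat.exists_eq_add_of_le h
  induction k with
  | zero => exact le_rfl
  | succ k ih =>
    rw [← add_assoc, Function.iterate_succ_apply']
    exact (D.sh_le _).trans (ih (Nat.le_add_right _ _))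

/-- symmetric range -/
def Gn (n : ℕ) (c : Cham D) : Prop :=
  ∀ i : ℤ, 0 ≤ i → i ≤ 2 → D.sh^[n] D.base ≤ c.1 i ∧ c.1 i ≤ D.us^[n] D.base

theorem gn_mono {m n : ℕ} (h : m ≤ n) {c : Cham D} (hc : Gn D m c) : Gn D n c :=
  fun i h1 h2 => ⟨(sh_iter_anti D _ h).trans (hc i h1 h2).1, (hc i h1 h2).2.trans
    (us_iter_mono D _ h)⟩

theorem exists_gn (c : Cham D) : ∃ n, Gn D n c := by
  obtain ⟨n0, h0⟩ := D.cof (c.1 0)
  obtain ⟨n1, h1⟩ := D.cof (c.1 1)
  obtain ⟨n2, h2⟩ := D.cof (c.1 2)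
  refine ⟨n0 + n1 + n2, fun i hi0 hi2 => ?_⟩
  have key : ∀ (n : ℕ) (i : ℤ), n ≤ n0 + n1 + n2 →
      (D.sh^[n] D.base ≤ c.1 i ∧ c.1 i ≤ D.us^[n] D.base) →
      (D.sh^[n0 + n1 + n2] D.base ≤ c.1 i ∧ c.1 i ≤ D.us^[n0 + n1 + n2] D.base) :=
    fun n i h h' => ⟨(sh_iter_anti D _ h).trans h'.1, h'.2.trans (us_iter_mono D _ h)⟩
  have : i = 0 ∨ i = 1 ∨ i = 2 := by omega
  rcases this with rfl | rfl | rfl
  · exact key n0 0 (by omega) h0
  · exact key n1 1 (by omega) h1
  · exact key n2 2 (by omega) h2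

theorem exists_gn_list (l : List (Set (ZMod 3) × Cham D)) : ∃ n, ∀ x ∈ l, Gn D n x.2 := by
  induction l with
  | nil => exact ⟨0, by simp⟩
  | cons x l ih =>
    obtain ⟨n, hn⟩ := ih
    obtain ⟨m, hm⟩ := exists_gn D x.2
    refine ⟨max m n, fun y hy => ?_⟩
    rcases List.mem_cons.1 hy with rfl | hy
    · exact gn_mono D (le_max_left _ _) hm
    · exact gn_mono D (le_max_right _ _) (hn y hy)

theorem gd_of_gn {n : ℕ} {c : Cham D} (h : Gn D n c) : Gd D (D.us^[n] D.base) (2 * n) c := by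
  intro i h1 h2
  refine ⟨?_, (h i h1 h2).2⟩
  have : D.sh^[2 * n] (D.us^[n] D.base) = D.sh^[n] D.base := by
    rw [sh_iter, us_iter, sh_iter, ← Equiv.Perm.mul_apply, ← zpow_add]
    congr 2
    push_cast
    ring
  rw [this]
  exact (h i h1 h2).1

theorem exists_base : ∃ c0 : Cham D, ∀ n : ℕ, Cont D c0 (D.us^[n] D.base) := by
  obtain ⟨c0, h1, _⟩ := exists_cham2 (D := D) (L := D.base) (L' := D.base) le_rfl (D.sh_le _)
  refine ⟨c0, fun n => ?_⟩
  unfold Cont at h1 ⊢
  rw [us_iter, shp_ind, D.ind_base] at *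
  rw [cham_add, h1]

/-- T3-B -/
theorem lat_sc {V : Type} [SemilatticeSup V] (D : LatSys V) (X : Sys (ZMod 3) (Cham D))
    (hX : X.r = chamRel D) : X.SC := by
  obtain ⟨c0, hc0⟩ := exists_base D
  refine ⟨⟨c0⟩, ?_, ?_⟩
  · have key : ∀ a : Cham D, ∃ l, IsGal X c0 l ∧ fin c0 l = a := by
      intro a
      obtain ⟨n, hn⟩ := exists_gn D a
      exact ⟨_, alp_valid hX c0 (hc0 n) (2 * n) (a.1 0) a
        (gd_of_gn D hn 0 le_rfl (by norm_num)) (cont_self D a 0)⟩
    intro a b
    obtain ⟨l, hl, hl'⟩ := key a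
    obtain ⟨m, hm, hm'⟩ := key b
    refine ⟨grev c0 l ++ m, ?_, ?_⟩
    · rw [isGal_append]
      constructor
      · rw [← hl']
        exact isGal_grev _ _ _ hl
      · rw [← hl', fin_grev]
        exact hm
    · rw [fin_append, ← hl', fin_grev]
      exact hm'
  · intro a l hl hfin
    obtain ⟨n, hn⟩ := exists_gn D a
    obtain ⟨m, hm⟩ := exists_gn_list D l
    have ha := gd_of_gn D (gn_mono D (le_max_left n m) hn)
    have hl' : ∀ x ∈ l, Gd D (D.us^[max n m] D.base) (2 * max n m) x.2 :=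
      fun x hx => gd_of_gn D (gn_mono D (le_max_right n m) (hm x hx))
    have h1 := alp_gal hX c0 (hc0 (max n m)) (2 * max n m) l a ha hl hl'
    rw [hfin] at h1
    obtain ⟨v1, v2⟩ := alp_valid hX c0 (hc0 (max n m)) (2 * max n m) (a.1 0) a
      (ha 0 le_rfl (by norm_num)) (cont_self D a 0)
    have h2 := hom_cancel_left (X := X) _ v1 (m := l) (n := []) (by rw [List.append_nil]; exact h1)
    rwa [v2] at h2

end Pool.Agent.helper50.LT
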