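import Pool.Agent.helper50.LT.Rep
import Pool.Agent.helper60.LT.Braid
import Pool.Agent.helper80.LT.Dihedral

set_option autoImplicit false

/-!
Module LT-N2
-/

namespace Pool.Agent.helper50.LT

open Pool.Agent.helper36.LT
open Matrix (GeneralLinearGroup)

theorem n1a : N1a := fun M => Pool.Agent.helper60.LT.exists_form M

theorem n1b : N1b := fun M hM ω hω s t => Pool.Agent.helper60.LT.alt_trv M hM ω hω s t

theorem n3 : N3 := fun G _ s t m hm hrel len hs ht f fs ft x hx hlen hf =>
  Pool.Agent.helper80.LT.dihedral G s t m hm hrel len hs ht f fs ft x hx hlen hf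

theorem artin_sys {S : Type} [Fintype S] (M : CoxeterMatrix S) (hM : ∀ s t, M.M s t ≠ 2) :
    ∃ X : Sys S (Artin M), X.r = artinRel M :=
  artin_sys_of n1a n1b M hM

theorem artin_rep {S : Type} [Fintype S] [DecidableEq S] (M : CoxeterMatrix S)
    (hM : ∀ s t, M.M s t ≠ 2) (X : Sys S (Artin M)) (hX : X.r = artinRel M) :
    ∃ (K : Type) (_ : Field K) (_ : NumberField K) (f : Artin M →* GeneralLinearGroup S K),
      X.InjStab f :=
  artin_rep_of n1a n1b n3 M hM X hX

end Pool.Agent.helper50.LT
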