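import Pool.Agent.helper50.LT.Base

set_option autoImplicit false
set_option linter.unusedSectionVars false
set_option linter.unusedVariables false

/-!
The chamber system of an Artin group of large type
-/

namespace Pool.Agent.helper50.LT

open Pool.Agent.helper36.LT

/-- module N1, first part -/
def N1a : Prop := ∀ {S : Type} (M : CoxeterMatrix S), ∃ ω, Form M ω

/-- module N1, second part -/
def N1b : Prop := ∀ {S : Type} [Fintype S] [DecidableEq S] (M : CoxeterMatrix S)
    (hM : ∀ s t, M.M s t ≠ 2)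
    (ω : S → S → ℝ) (hω : Form M ω) (s t : S),
    alt (trv ω s) (trv ω t) (M.M s t) = alt (trv ω t) (trv ω s) (M.M s t)

section

variable {S : Type} (M : CoxeterMatrix S)

theorem mem_closure_gen_singleton (s : S) (x : Artin M) :
    x ∈ Subgroup.closure (gen M '' {s}) ↔ ∃ k : ℤ, gen M s ^ k = x := by
  rw [Set.image_singleton, Subgroup.mem_closure_singleton]

theorem form_self {M : CoxeterMatrix S} {ω : S → S → ℝ} (hω : Form M ω) (s : S) : ω s s = 0 := by
  have := hω.skew s s
  linarith

theorem cos_pos_of {m : ℕ} (h1 : m ≠ 1) (h2 : m ≠ 2) : 0 < Real.cos (Real.pi / m) := by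
  rcases Nat.eq_zero_or_pos m with h | h
  · subst h
    simp
  · have h3 : (3 : ℝ) ≤ m := by
      have : 3 ≤ m := by omega
      exact_mod_cast this
    apply Real.cos_pos_of_mem_Ioo
    constructor
    · have : 0 < Real.pi / m := by positivity
      have := Real.pi_pos
      linarith
    · rw [div_lt_iff₀ (by linarith)]
      have := Real.pi_pos
      nlinarith

theorem form_ne_zero {M : CoxeterMatrix S} (hM : ∀ s t, M.M s t ≠ 2) {ω : S → S → ℝ}
    (hω : Form M ω) {s t : S} (h : s ≠ t) : ω s t ≠ 0 := by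
  have h1 := cos_pos_of (M.off_diagonal s t h) (hM s t)
  rcases hω.val s t h with h2 | h2
  · rw [h2]
    positivity
  · rw [h2]
    intro h3
    have : 0 < 2 * Real.cos (Real.pi / M.M s t) := by positivity
    linarith

variable [Fintype S] [DecidableEq S]

/-- the transvection representation -/
noncomputable def rep1 (h2 : N1b) (hM : ∀ s t, M.M s t ≠ 2) {ω : S → S → ℝ} (hω : Form M ω) :
    Artin M →* Matrix.GeneralLinearGroup S ℝ :=
  lift M (fun s => tvu ω s (form_self hω s)) (by
    intro s t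
    have hc : ∀ (a b : Matrix.GeneralLinearGroup S ℝ) (n : ℕ),
        ((alt a b n : Matrix.GeneralLinearGroup S ℝ) : Matrix S S ℝ) =
        alt (a : Matrix S S ℝ) (b : Matrix S S ℝ) n :=
      fun a b n => alt_map (Units.coeHom _) a b n
    apply Units.ext
    rw [hc, hc]
    simp only [tvu_val]
    have := h2 M hM ω hω s t
    rwa [trv_eq, trv_eq] at this)

theorem rep1_gen (h2 : N1b) (hM : ∀ s t, M.M s t ≠ 2) {ω : S → S → ℝ} (hω : Form M ω) (s : S) :
    rep1 M h2 hM hω (gen M s) = tvu ω s (form_self hω s) := lift_gen _ _ _ _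

theorem rep1_gen_zpow (h2 : N1b) (hM : ∀ s t, M.M s t ≠ 2) {ω : S → S → ℝ} (hω : Form M ω)
    (s : S) (k : ℤ) :
    (rep1 M h2 hM hω (gen M s ^ k) : Matrix S S ℝ) = tvz ω s (k : ℝ) := by
  rw [map_zpow, rep1_gen, tvu_zpow]

theorem gen_two (h2 : N1b) (hM : ∀ s t, M.M s t ≠ 2) {ω : S → S → ℝ} (hω : Form M ω)
    {s t : S} (h : s ≠ t) {a b : ℤ} (hab : gen M s ^ a = gen M t ^ b) : a = 0 := by
  have h1 := congrArg (fun x => (rep1 M h2 hM hω x : Matrix S S ℝ) s t) hab
  simp only [rep1_gen_zpow] at h1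
  simp only [tvz, Matrix.of_apply, if_neg h, if_true] at h1
  have h3 : (a : ℝ) * ω s t = 0 := by linarith
  rcases mul_eq_zero.1 h3 with h4 | h4
  · exact_mod_cast h4
  · exact absurd h4 (form_ne_zero hM hω h)

theorem tvz_mul_apply (ω : S → S → ℝ) {s t : S} (h : s ≠ t) (hs : ω s s = 0) (a b : ℝ) :
    (tvz ω s a * tvz ω t b) s s = 1 + a * b * (ω s t * ω t s) := by
  simp only [tvz, Matrix.mul_apply, Matrix.of_apply, add_mul, mul_add, Finset.sum_add_distrib]
  simp [hs, h]
  ring

theorem tvz_mul_apply' (ω : S → S → ℝ) {s t : S} (h : s ≠ t) (hs : ω s s = 0) (a b : ℝ) :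
    (tvz ω t a * tvz ω s b) s s = 1 := by
  simp only [tvz, Matrix.mul_apply, Matrix.of_apply, add_mul, mul_add, Finset.sum_add_distrib]
  simp [hs, h]

theorem gen_four (h2 : N1b) (hM : ∀ s t, M.M s t ≠ 2) {ω : S → S → ℝ} (hω : Form M ω)
    {s t : S} (h : s ≠ t) {a b c d : ℤ}
    (habcd : gen M s ^ a * gen M t ^ b * gen M s ^ c * gen M t ^ d = 1) : a = 0 ∨ b = 0 := by
  have h0 : gen M s ^ a * gen M t ^ b = gen M t ^ (-d) * gen M s ^ (-c) := by
    rw [zpow_neg, zpow_neg, ← mul_inv_rev]
    exact eq_inv_of_mul_eq_one_left (by rw [← mul_assoc]; exact habcd)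
  have h1 := congrArg (fun x => (rep1 M h2 hM hω x : Matrix S S ℝ) s s) h0
  simp only [map_mul, Units.val_mul, rep1_gen_zpow] at h1
  rw [tvz_mul_apply ω h (form_self hω s), tvz_mul_apply' ω h (form_self hω s)] at h1
  have h3 : (a : ℝ) * b * (ω s t * ω t s) = 0 := by linarith
  rcases mul_eq_zero.1 h3 with h4 | h4
  · rcases mul_eq_zero.1 h4 with h5 | h5
    · left
      exact_mod_cast h5
    · right
      exact_mod_cast h5
  · rcases mul_eq_zero.1 h4 with h5 | h5
    · exact absurd h5 (form_ne_zero hM hω h)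
    · exact absurd h5 (form_ne_zero hM hω (Ne.symm h))

end

theorem artin_sys_of (h1 : N1a) (h2 : N1b) {S : Type} [Fintype S] (M : CoxeterMatrix S)
    (hM : ∀ s t, M.M s t ≠ 2) :
    ∃ X : Sys S (Artin M), X.r = artinRel M := by
  classical
  obtain ⟨ω, hω⟩ := h1 M
  refine ⟨{ r := artinRel M, refl := ?_, symm := ?_, trans := ?_, mono := ?_, zero := ?_, two := ?_, four := ?_ }, rfl⟩
  · intro T b _
    unfold artinRel
    rw [inv_mul_cancel]
    exact Subgroup.one_mem _
  · intro T b c _ h
    unfold artinRel at *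
    have := Subgroup.inv_mem _ h
    simpa using this
  · intro T b c d _ h h'
    unfold artinRel at *
    have := Subgroup.mul_mem _ h h'
    simpa [mul_assoc] using this
  · intro T T' b c hT _ _ h
    unfold artinRel at *
    exact Subgroup.closure_mono (Set.image_mono hT) h
  · intro b c h
    unfold artinRel at h
    rw [Set.image_empty, Subgroup.closure_empty, Subgroup.mem_bot] at h
    exact inv_mul_eq_one.1 h
  · intro s t b c hst h h'
    unfold artinRel at *
    rw [mem_closure_gen_singleton] at h h'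
    obtain ⟨k, hk⟩ := h
    obtain ⟨l, hl⟩ := h'
    have h3 := gen_two M h2 hM hω hst (hk.trans hl.symm)
    subst h3
    rw [zpow_zero] at hk
    exact inv_mul_eq_one.1 hk.symm
  · intro s t a b c d hst hab hbc hcd hda
    unfold artinRel at *
    rw [mem_closure_gen_singleton] at hab hbc hcd hda
    obtain ⟨k1, h1⟩ := hab
    obtain ⟨k2, h2'⟩ := hbc
    obtain ⟨k3, h3⟩ := hcd
    obtain ⟨k4, h4⟩ := hda
    have h5 : gen M s ^ k1 * gen M t ^ k2 * gen M s ^ k3 * gen M t ^ k4 = 1 := by
      rw [h1, h2', h3, h4]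
      group
    rcases gen_four M h2 hM hω hst h5 with h6 | h6
    · left
      subst h6
      rw [zpow_zero] at h1
      exact inv_mul_eq_one.1 h1.symm
    · right
      subst h6
      rw [zpow_zero] at h2'
      exact inv_mul_eq_one.1 h2'.symm

end Pool.Agent.helper50.LT
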